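import Pool.Agent.N219.DE.Decay

/-!
# Pointwise exponential decay for normalized solutions
-/

open MeasureTheory Set Filter Topology
open scoped InnerProductSpace

namespace Pool.Agent.N219.DE

variable {H : Type*} [NormedAddCommGroup H] [InnerProductSpace ℝ H]

/-- normalized solution of `A z' = T z + B(z,z)` -/
structure NSol (A T : H →L[ℝ] H) (B : H →L[ℝ] H →L[ℝ] H) (W : Submodule ℝ H) (ε : ℝ)
    (z : ℝ → H) : Prop where
  meas : AEStronglyMeasurable z volume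
  bdd : ∀ t, ‖z t‖ ≤ ε
  mem : ∀ᵐ t, 0 < t → z t ∈ W
  eqn : ∃ y₀ : H, ∀ᵐ t, 0 < t →
    A (z t) = y₀ + ∫ s in (0 : ℝ)..t, (T (z s) + B (z s) (z s))

theorem G_meas {T : H →L[ℝ] H} {B : H →L[ℝ] H →L[ℝ] H} {z : ℝ → H}
    (hz : AEStronglyMeasurable z volume) :
    AEStronglyMeasurable (fun t => T (z t) + B (z t) (z t)) volume :=
  (T.continuous.comp_aestronglyMeasurable hz).add (B.aestronglyMeasurable_comp₂ hz hz)

theorem G_bdd {T : H →L[ℝ] H} {B : H →L[ℝ] H →L[ℝ] H} {x : H} {ε τ b : ℝ}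
    (hT : ‖T‖ ≤ τ) (hB : ‖B‖ ≤ b) (hx : ‖x‖ ≤ ε) :
    ‖T x + B x x‖ ≤ τ * ε + b * ε * ε := by
  have hε : 0 ≤ ε := (norm_nonneg _).trans hx
  have hτ : 0 ≤ τ := (norm_nonneg _).trans hT
  have hb : 0 ≤ b := B.opNorm_nonneg.trans hB
  have h1 : ‖T x‖ ≤ τ * ε := (T.le_opNorm x).trans (mul_le_mul hT hx (norm_nonneg _) hτ)
  have h2 : ‖B x x‖ ≤ b * ε * ε := (B.le_opNorm₂ x x).trans (by gcongr)
  exact (norm_add_le _ _).trans (add_le_add h1 h2)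

/-- coercivity for differences -/
theorem coerc {T : H →L[ℝ] H} {B : H →L[ℝ] H →L[ℝ] H}
    (hBs : ∀ x y, B x y = B y x) {W : Submodule ℝ H} {κ b ε : ℝ}
    (hB : ‖B‖ ≤ b) (hW : ∀ x ∈ W, 2 * κ * ‖x‖ ^ 2 ≤ -(2 * ⟪T x, x⟫_ℝ))
    (hε : 4 * b * ε ≤ κ) {p q : H} (hp : ‖p‖ ≤ ε) (hq : ‖q‖ ≤ ε) (hpq : p - q ∈ W) :
    κ * ‖p - q‖ ^ 2 ≤ -(2 * ⟪(T p + B p p) - (T q + B q q), p - q⟫_ℝ) := by
  have h1 : (T p + B p p) - (T q + B q q) = T (p - q) + B (p + q) (p - q) := by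
    simp only [map_sub, map_add, _root_.add_apply]
    rw [hBs q p]
    abel
  rw [h1, inner_add_left]
  have h2 := hW _ hpq
  have hb : 0 ≤ b := B.opNorm_nonneg.trans hB
  have h3 : |⟪B (p + q) (p - q), p - q⟫_ℝ| ≤ b * (2 * ε) * ‖p - q‖ * ‖p - q‖ := by
    have h4 := abs_real_inner_le_norm (B (p + q) (p - q)) (p - q)
    have h5 : ‖p + q‖ ≤ 2 * ε := (norm_add_le _ _).trans (by linarith)
    have h6 : ‖B (p + q) (p - q)‖ ≤ b * (2 * ε) * ‖p - q‖ :=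
      (B.le_opNorm₂ _ _).trans (by gcongr)
    exact h4.trans (mul_le_mul_of_nonneg_right h6 (norm_nonneg _))
  have h7 := (abs_le.1 h3).2
  have h8 : 4 * b * ε * ‖p - q‖ ^ 2 ≤ κ * ‖p - q‖ ^ 2 :=
    mul_le_mul_of_nonneg_right hε (sq_nonneg _)
  nlinarith [h2, h7, h8]

section main

variable [CompleteSpace H] {A T : H →L[ℝ] H} {B : H →L[ℝ] H →L[ℝ] H} {W : Submodule ℝ H}
  {ε κ τ b : ℝ} {z : ℝ → H}

/-- Step (i): exponential decay of the tail integrals of `‖z‖²`. -/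
theorem tail_decay (hA : ∀ x y, ⟪A x, y⟫_ℝ = ⟪x, A y⟫_ℝ)
    (hBs : ∀ x y, B x y = B y x) (hκ : 0 < κ) (hT : ‖T‖ ≤ τ)
    (hB : ‖B‖ ≤ b) (hW : ∀ x ∈ W, 2 * κ * ‖x‖ ^ 2 ≤ -(2 * ⟪T x, x⟫_ℝ))
    (hε : 4 * b * ε ≤ κ) (hz : NSol A T B W ε z) (n : ℕ) (S : ℝ) (hS : 0 < S)
    (hn : (n : ℝ) ≤ S) :
    ∫ x in (n : ℝ)..S, ‖z x‖ ^ 2 ≤ (ε ^ 2 + (‖A‖ + 1) * ε ^ 2 / κ) *
      ((‖A‖ + 1) / (κ + (‖A‖ + 1))) ^ n := by
  obtain ⟨y₀, hy₀⟩ := hz.eqn
  have hε0 : 0 ≤ ε := (norm_nonneg _).trans (hz.bdd 0)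
  have h1 := energy_ineq A hA hκ hz.meas hz.bdd (G_meas (T := T) (B := B) hz.meas)
    (fun t => G_bdd hT hB (hz.bdd t)) hy₀ (by
      filter_upwards [hz.mem] with t ht ht0
      have h2 := coerc hBs hB hW hε (hz.bdd t) (show ‖(0 : H)‖ ≤ ε by simpa using hε0)
        (by simpa using ht ht0)
      simpa using h2)
  apply decay_lin (sqInt hz.meas hz.bdd) (fun t => sq_nonneg _)
    (fun t => pow_le_pow_left₀ (norm_nonneg _) (hz.bdd t) 2) hκ (by positivity) hS _ n hn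
  filter_upwards [h1] with r hr hr0 hrS
  refine (hr hr0 S hrS).trans ?_
  calc ⟪A (z r), z r⟫_ℝ ≤ ‖A (z r)‖ * ‖z r‖ := real_inner_le_norm _ _
    _ ≤ ‖A‖ * ‖z r‖ * ‖z r‖ := mul_le_mul_of_nonneg_right (A.le_opNorm _) (norm_nonneg _)
    _ ≤ (‖A‖ + 1) * ‖z r‖ ^ 2 := by nlinarith [sq_nonneg ‖z r‖]

/-- Step (ii): energy inequality for increments. -/
theorem incr_ineq (hA : ∀ x y, ⟪A x, y⟫_ℝ = ⟪x, A y⟫_ℝ)
    (hBs : ∀ x y, B x y = B y x) (hκ : 0 < κ) (hT : ‖T‖ ≤ τ)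
    (hB : ‖B‖ ≤ b) (hW : ∀ x ∈ W, 2 * κ * ‖x‖ ^ 2 ≤ -(2 * ⟪T x, x⟫_ℝ))
    (hε : 4 * b * ε ≤ κ) (hz : NSol A T B W ε z) {h : ℝ} (hh : 0 < h) :
    ∀ᵐ r, 0 < r → ∀ S, r ≤ S → κ * ∫ x in r..S, ‖z (x + h) - z x‖ ^ 2 ≤
      ((τ * ε + b * ε * ε) * h) * ‖z (r + h) - z r‖ := by
  obtain ⟨y₀, hy₀⟩ := hz.eqn
  have hε0 : 0 ≤ ε := (norm_nonneg _).trans (hz.bdd 0)
  set G : ℝ → H := fun t => T (z t) + B (z t) (z t) with hGdef
  have hGm : AEStronglyMeasurable G volume := G_meas hz.meas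
  have hGb : ∀ t, ‖G t‖ ≤ τ * ε + b * ε * ε := fun t => G_bdd hT hB (hz.bdd t)
  have hmp := (measurePreserving_add_right (volume : Measure ℝ) h).quasiMeasurePreserving
  have hzm' : AEStronglyMeasurable (fun t => z (t + h)) volume :=
    hz.meas.comp_quasiMeasurePreserving hmp
  have hGm' : AEStronglyMeasurable (fun t => G (t + h)) volume :=
    hGm.comp_quasiMeasurePreserving hmp
  have hDm : AEStronglyMeasurable (fun t => z (t + h) - z t) volume := hzm'.sub hz.meas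
  have hDb : ∀ t, ‖z (t + h) - z t‖ ≤ 2 * ε := fun t =>
    (norm_sub_le _ _).trans (by linarith [hz.bdd t, hz.bdd (t + h)])
  have hGDm : AEStronglyMeasurable (fun t => G (t + h) - G t) volume := hGm'.sub hGm
  have hGDb : ∀ t, ‖G (t + h) - G t‖ ≤ 2 * (τ * ε + b * ε * ε) := fun t =>
    (norm_sub_le _ _).trans (by linarith [hGb t, hGb (t + h)])
  have hii : ∀ a c, IntervalIntegrable G volume a c := intInt hGm hGb
  have hii' : ∀ a c, IntervalIntegrable (fun t => G (t + h)) volume a c :=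
    intInt hGm' (fun t => hGb (t + h))
  have hAD : ∀ᵐ t, 0 < t → A (z (t + h) - z t) = ∫ s in t..(t + h), G s := by
    filter_upwards [hy₀, ae_shift hy₀ h] with t ht1 ht2 ht0
    rw [map_sub, ht1 ht0, ht2 (by linarith), add_sub_add_left_eq_sub]
    exact intervalIntegral.integral_interval_sub_left (hii _ _) (hii _ _)
  have hyD : ∀ᵐ t, 0 < t → A (z (t + h) - z t) = (∫ s in (0 : ℝ)..h, G s) +
      ∫ s in (0 : ℝ)..t, (G (s + h) - G s) := by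
    filter_upwards [hAD] with t ht ht0
    rw [ht ht0, intervalIntegral.integral_sub (hii' _ _) (hii _ _),
      intervalIntegral.integral_comp_add_right (fun s => G s) h, zero_add,
      ← intervalIntegral.integral_interval_sub_left (hii 0 (t + h)) (hii 0 t),
      ← intervalIntegral.integral_add_adjacent_intervals (hii 0 h) (hii h (t + h))]
    abel
  have h1 := energy_ineq A hA hκ hDm hDb hGDm hGDb hyD (by
      filter_upwards [hz.mem, ae_shift hz.mem h] with t ht1 ht2 ht0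
      exact coerc hBs hB hW hε (hz.bdd (t + h)) (hz.bdd t)
        (W.sub_mem (ht2 (by linarith)) (ht1 ht0)))
  filter_upwards [h1, hAD] with r hr hr2 hr0 S hS
  refine (hr hr0 S hS).trans ?_
  refine (real_inner_le_norm _ _).trans ?_
  apply mul_le_mul_of_nonneg_right _ (norm_nonneg _)
  rw [hr2 hr0]
  have h3 : ‖∫ s in r..(r + h), G s‖ ≤ (τ * ε + b * ε * ε) * |r + h - r| :=
    intervalIntegral.norm_integral_le_of_norm_le_const (fun x _ => hGb x)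
  rwa [add_sub_cancel_left, abs_of_pos hh] at h3

/-- Step (iii) -/
theorem incr_decay (hA : ∀ x y, ⟪A x, y⟫_ℝ = ⟪x, A y⟫_ℝ)
    (hBs : ∀ x y, B x y = B y x) (hκ : 0 < κ) (hT : ‖T‖ ≤ τ)
    (hB : ‖B‖ ≤ b) (hW : ∀ x ∈ W, 2 * κ * ‖x‖ ^ 2 ≤ -(2 * ⟪T x, x⟫_ℝ))
    (hε : 4 * b * ε ≤ κ) (hz : NSol A T B W ε z) {h : ℝ} (hh : 0 < h) (n : ℕ) (S : ℝ)
    (hn : (n : ℝ) + 2 ≤ S) :
    κ ^ 6 * (∫ x in ((n : ℝ) + 2)..S, ‖z (x + h) - z x‖ ^ 2) ^ 4 ≤
      ((τ * ε + b * ε * ε) * h) ^ 6 * (4 * ((ε ^ 2 + (‖A‖ + 1) * ε ^ 2 / κ) *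
      ((‖A‖ + 1) / (κ + (‖A‖ + 1))) ^ n)) := by
  have hε0 : 0 ≤ ε := (norm_nonneg _).trans (hz.bdd 0)
  have hmp := (measurePreserving_add_right (volume : Measure ℝ) h).quasiMeasurePreserving
  have hzm' : AEStronglyMeasurable (fun t => z (t + h)) volume :=
    hz.meas.comp_quasiMeasurePreserving hmp
  have hDm : AEStronglyMeasurable (fun t => z (t + h) - z t) volume := hzm'.sub hz.meas
  have hDb : ∀ t, ‖z (t + h) - z t‖ ≤ 2 * ε := fun t =>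
    (norm_sub_le _ _).trans (by linarith [hz.bdd t, hz.bdd (t + h)])
  set f : ℝ → ℝ := fun x => ‖z (x + h) - z x‖ ^ 2 with hf
  have hfi : ∀ a c, IntervalIntegrable f volume a c := sqInt hDm hDb
  have hf0 : ∀ t, 0 ≤ f t := fun t => sq_nonneg _
  set a := (τ * ε + b * ε * ε) * h with ha
  have hkey : ∀ᵐ r, 0 < r → r ≤ S → (κ * ∫ x in r..S, f x) ^ 2 ≤ a ^ 2 * f r := by
    filter_upwards [incr_ineq hA hBs hκ hT hB hW hε hz hh] with r hr hr0 hrS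
    have h1 := hr hr0 S hrS
    have h2 : 0 ≤ κ * ∫ x in r..S, f x :=
      mul_nonneg hκ.le (intervalIntegral.integral_nonneg hrS (fun u _ => hf0 u))
    have h3 := pow_le_pow_left₀ h2 h1 2
    rw [mul_pow a] at h3
    exact h3
  have hn0 : (0 : ℝ) ≤ n := Nat.cast_nonneg n
  have e1 := step_sq hfi hf0 (s := n) hn0 (by linarith) hκ.le hkey
  have e2 := step_sq hfi hf0 (s := n + 1) (by linarith) (by linarith) hκ.le hkey
  rw [show (n : ℝ) + 1 + 1 = n + 2 by ring] at e2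
  set J0 := ∫ x in (n : ℝ)..S, f x
  set J1 := ∫ x in ((n : ℝ) + 1)..S, f x
  set J2 := ∫ x in ((n : ℝ) + 2)..S, f x
  have hJ0 : J0 ≤ 4 * ((ε ^ 2 + (‖A‖ + 1) * ε ^ 2 / κ) *
      ((‖A‖ + 1) / (κ + (‖A‖ + 1))) ^ n) := by
    have hi1 : ∀ a c, IntervalIntegrable (fun x => ‖z x‖ ^ 2) volume a c := sqInt hz.meas hz.bdd
    have hi2 : ∀ a c, IntervalIntegrable (fun x => ‖z (x + h)‖ ^ 2) volume a c :=
      sqInt hzm' (fun t => hz.bdd (t + h))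
    have h1 : J0 ≤ ∫ x in (n : ℝ)..S, (2 * ‖z (x + h)‖ ^ 2 + 2 * ‖z x‖ ^ 2) := by
      apply intervalIntegral.integral_mono_on (by linarith) (hfi _ _)
        (((hi2 _ _).const_mul 2).add ((hi1 _ _).const_mul 2))
      intro x _
      have h3 := norm_sub_le (z (x + h)) (z x)
      have h4 : f x ≤ (‖z (x + h)‖ + ‖z x‖) ^ 2 := pow_le_pow_left₀ (norm_nonneg _) h3 2
      nlinarith [sq_nonneg (‖z (x + h)‖ - ‖z x‖)]
    rw [intervalIntegral.integral_add ((hi2 _ _).const_mul 2) ((hi1 _ _).const_mul 2),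
      intervalIntegral.integral_const_mul, intervalIntegral.integral_const_mul,
      intervalIntegral.integral_comp_add_right (fun x => ‖z x‖ ^ 2) h] at h1
    have h5 : ∫ x in ((n : ℝ) + h)..(S + h), ‖z x‖ ^ 2 ≤ ∫ x in (n : ℝ)..(S + h), ‖z x‖ ^ 2 :=
      integral_mono_left hi1 (fun t => sq_nonneg _) (by linarith)
    have h6 := tail_decay hA hBs hκ hT hB hW hε hz n (S + h) (by linarith) (by linarith)
    have h7 := tail_decay hA hBs hκ hT hB hW hε hz n S (by linarith) (by linarith)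
    linarith
  have hA0 : 0 ≤ a ^ 2 := sq_nonneg a
  have hJ1 : 0 ≤ J1 := intervalIntegral.integral_nonneg (by linarith) (fun u _ => hf0 u)
  have hJ2 : 0 ≤ J2 := intervalIntegral.integral_nonneg (by linarith) (fun u _ => hf0 u)
  calc κ ^ 6 * J2 ^ 4 = κ ^ 2 * ((κ * J2) ^ 2) ^ 2 := by ring
    _ ≤ κ ^ 2 * (a ^ 2 * J1) ^ 2 := by gcongr
    _ = a ^ 4 * (κ * J1) ^ 2 := by ring
    _ ≤ a ^ 4 * (a ^ 2 * J0) := by
        apply mul_le_mul_of_nonneg_left e1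
        positivity
    _ = a ^ 6 * J0 := by ring
    _ ≤ _ := by
        apply mul_le_mul_of_nonneg_left hJ0
        positivity

end main

end Pool.Agent.N219.DE
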