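import Pool.Agent.N219.DE.Energy

/-!
# Energy inequality and decay of tail integrals
-/

open MeasureTheory Set Filter Topology
open scoped InnerProductSpace

namespace Pool.Agent.N219.DE

theorem ae_exists_gt {P : ℝ → Prop} (h : ∀ᵐ t, P t) {a b : ℝ} (hab : a < b) :
    ∃ t, a < t ∧ t < b ∧ P t := by
  have h1 : Dense {t | P t} := Measure.dense_of_ae h
  obtain ⟨t, ht1, ht2⟩ := h1.exists_mem_open isOpen_Ioo (nonempty_Ioo.2 hab)
  exact ⟨t, ht2.1, ht2.2, ht1⟩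

theorem ae_shift {P : ℝ → Prop} (h : ∀ᵐ t, P t) (a : ℝ) : ∀ᵐ t, P (t + a) :=
  (measurePreserving_add_right (volume : Measure ℝ) a).quasiMeasurePreserving.ae h

theorem const_le_integral {f : ℝ → ℝ} {a b c : ℝ} (hab : a ≤ b)
    (hfi : IntervalIntegrable f volume a b) (h : ∀ᵐ r, a < r → r < b → c ≤ f r) :
    c * (b - a) ≤ ∫ r in a..b, f r := by
  have h1 : ∫ r in a..b, c = c * (b - a) := by
    rw [intervalIntegral.integral_const, smul_eq_mul, mul_comm]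
  rw [← h1]
  apply intervalIntegral.integral_mono_ae_restrict hab intervalIntegrable_const hfi
  have h2 : ∀ᵐ r, r ≠ a := by simp [ae_iff, measure_singleton]
  have h3 : ∀ᵐ r, r ≠ b := by simp [ae_iff, measure_singleton]
  rw [EventuallyLE, ae_restrict_iff' measurableSet_Icc]
  filter_upwards [h, h2, h3] with r hr ha hb hr2
  exact hr (lt_of_le_of_ne hr2.1 (Ne.symm ha)) (lt_of_le_of_ne hr2.2 hb)

theorem integral_mono_left {f : ℝ → ℝ} (hfi : ∀ a b, IntervalIntegrable f volume a b)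
    (hf0 : ∀ t, 0 ≤ f t) {r s T : ℝ} (hrs : r ≤ s) :
    ∫ x in s..T, f x ≤ ∫ x in r..T, f x := by
  rw [← intervalIntegral.integral_add_adjacent_intervals (hfi r s) (hfi s T)]
  have := intervalIntegral.integral_nonneg (μ := volume) hrs (fun u _ => hf0 u)
  linarith

theorem integral_mono_right {f : ℝ → ℝ} (hfi : ∀ a b, IntervalIntegrable f volume a b)
    (hf0 : ∀ t, 0 ≤ f t) {r s T : ℝ} (hsT : s ≤ T) :
    ∫ x in r..s, f x ≤ ∫ x in r..T, f x := by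
  rw [← intervalIntegral.integral_add_adjacent_intervals (hfi r s) (hfi s T)]
  have := intervalIntegral.integral_nonneg (μ := volume) hsT (fun u _ => hf0 u)
  linarith

theorem sqInt {E : Type*} [NormedAddCommGroup E] {z : ℝ → E} {R : ℝ}
    (hzm : AEStronglyMeasurable z volume) (hzb : ∀ t, ‖z t‖ ≤ R) (a b : ℝ) :
    IntervalIntegrable (fun r => ‖z r‖ ^ 2) volume a b :=
  intInt (R := R ^ 2) (z := fun r => ‖z r‖ ^ 2) (hzm.norm.pow 2) (fun t => by
    rw [norm_pow, norm_norm]; exact pow_le_pow_left₀ (norm_nonneg _) (hzb t) 2) a b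

/-- linear step -/
theorem step_lin {f : ℝ → ℝ} (hfi : ∀ a b, IntervalIntegrable f volume a b)
    (hf0 : ∀ t, 0 ≤ f t) {κ a T s : ℝ} (hs : 0 ≤ s) (hsT : s + 1 ≤ T) (hκ : 0 ≤ κ)
    (h : ∀ᵐ r, 0 < r → r ≤ T → κ * ∫ x in r..T, f x ≤ a * f r) :
    κ * ∫ x in (s + 1)..T, f x ≤ a * ((∫ x in s..T, f x) - ∫ x in (s + 1)..T, f x) := by
  have h1 := const_le_integral (f := fun r => a * f r) (a := s) (b := s + 1)
    (c := κ * ∫ x in (s + 1)..T, f x) (by linarith) ((hfi s (s + 1)).const_mul a) (by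
      filter_upwards [h] with r hr h2 h3
      refine le_trans ?_ (hr (by linarith) (by linarith))
      exact mul_le_mul_of_nonneg_left (integral_mono_left hfi hf0 h3.le) hκ)
  rw [intervalIntegral.integral_const_mul] at h1
  rw [← intervalIntegral.integral_add_adjacent_intervals (hfi s (s + 1)) (hfi (s + 1) T)]
  nlinarith [h1]

/-- quadratic step -/
theorem step_sq {f : ℝ → ℝ} (hfi : ∀ a b, IntervalIntegrable f volume a b)
    (hf0 : ∀ t, 0 ≤ f t) {κ a T s : ℝ} (hs : 0 ≤ s) (hsT : s + 1 ≤ T) (hκ : 0 ≤ κ)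
    (h : ∀ᵐ r, 0 < r → r ≤ T → (κ * ∫ x in r..T, f x) ^ 2 ≤ a ^ 2 * f r) :
    (κ * ∫ x in (s + 1)..T, f x) ^ 2 ≤ a ^ 2 * ∫ x in s..T, f x := by
  have h1 := const_le_integral (f := fun r => a ^ 2 * f r) (a := s) (b := s + 1)
    (c := (κ * ∫ x in (s + 1)..T, f x) ^ 2) (by linarith) ((hfi s (s + 1)).const_mul _) (by
      filter_upwards [h] with r hr h2 h3
      refine le_trans ?_ (hr (by linarith) (by linarith))
      apply pow_le_pow_left₀
      · exact mul_nonneg hκ (intervalIntegral.integral_nonneg (μ := volume) hsT (fun u _ => hf0 u))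
      · exact mul_le_mul_of_nonneg_left (integral_mono_left hfi hf0 h3.le) hκ)
  rw [intervalIntegral.integral_const_mul] at h1
  have h2 : a ^ 2 * ∫ x in s..(s + 1), f x ≤ a ^ 2 * ∫ x in s..T, f x :=
    mul_le_mul_of_nonneg_left (integral_mono_right hfi hf0 hsT) (sq_nonneg a)
  linarith

/-- iterated linear step -/
theorem decay_lin {f : ℝ → ℝ} (hfi : ∀ a b, IntervalIntegrable f volume a b)
    (hf0 : ∀ t, 0 ≤ f t) {M : ℝ} (hfM : ∀ t, f t ≤ M) {κ a T : ℝ} (hκ : 0 < κ) (ha : 0 < a)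
    (hT1 : 0 < T)
    (h : ∀ᵐ r, 0 < r → r ≤ T → κ * ∫ x in r..T, f x ≤ a * f r) (n : ℕ) (hn : (n : ℝ) ≤ T) :
    ∫ x in (n : ℝ)..T, f x ≤ (M + a * M / κ) * (a / (κ + a)) ^ n := by
  have hM : 0 ≤ M := (hf0 0).trans (hfM 0)
  induction n with
  | zero =>
    obtain ⟨r, hr0, hr1, hr2⟩ := ae_exists_gt h (show (0 : ℝ) < min 1 T from lt_min one_pos hT1)
    have hr3 := hr2 hr0 (hr1.le.trans (min_le_right _ _))
    have hr4 : r ≤ 1 := hr1.le.trans (min_le_left _ _)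
    simp only [Nat.cast_zero, pow_zero, mul_one]
    rw [← intervalIntegral.integral_add_adjacent_intervals (hfi 0 r) (hfi r T)]
    have h5 : ∫ x in (0 : ℝ)..r, f x ≤ M := by
      have h6 : ∫ x in (0 : ℝ)..r, f x ≤ ∫ x in (0 : ℝ)..r, M :=
        intervalIntegral.integral_mono_on hr0.le (hfi 0 r) intervalIntegrable_const
          (fun x _ => hfM x)
      rw [intervalIntegral.integral_const, smul_eq_mul, sub_zero] at h6
      nlinarith
    have h7 : ∫ x in r..T, f x ≤ a * M / κ := by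
      rw [le_div_iff₀ hκ]
      have := mul_le_mul_of_nonneg_left (hfM r) ha.le
      linarith
    linarith
  | succ n ih =>
    push_cast at hn ⊢
    have ih' := ih (by linarith)
    have h1 := step_lin hfi hf0 (s := n) (Nat.cast_nonneg n) hn hκ.le h
    have h2 : (κ + a) * ∫ x in ((n : ℝ) + 1)..T, f x ≤ a * ∫ x in (n : ℝ)..T, f x := by
      linarith
    have h3 : ∫ x in ((n : ℝ) + 1)..T, f x ≤ a / (κ + a) * ∫ x in (n : ℝ)..T, f x := by
      rw [div_mul_eq_mul_div, le_div_iff₀ (by linarith)]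
      linarith
    calc _ ≤ a / (κ + a) * ∫ x in (n : ℝ)..T, f x := h3
      _ ≤ a / (κ + a) * ((M + a * M / κ) * (a / (κ + a)) ^ n) :=
          mul_le_mul_of_nonneg_left ih' (by positivity)
      _ = _ := by ring

/-- Cauchy–Schwarz for vector valued interval integrals of bounded functions. -/
theorem cs_integral {E : Type*} [NormedAddCommGroup E] [NormedSpace ℝ E]
    {f : ℝ → E} {R : ℝ} (hfm : AEStronglyMeasurable f volume)
    (hfb : ∀ t, ‖f t‖ ≤ R) {a b : ℝ} (hab : a < b) :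
    ‖∫ r in a..b, f r‖ ^ 2 ≤ (b - a) * ∫ r in a..b, ‖f r‖ ^ 2 := by
  have hR : 0 ≤ R := (norm_nonneg _).trans (hfb 0)
  have hi1 : IntervalIntegrable (fun r => ‖f r‖) volume a b :=
    intInt hfm.norm (fun t => by rw [norm_norm]; exact hfb t) a b
  have hi2 : IntervalIntegrable (fun r => ‖f r‖ ^ 2) volume a b := sqInt hfm hfb a b
  set m := ∫ r in a..b, ‖f r‖ with hm
  set S := ∫ r in a..b, ‖f r‖ ^ 2 with hS
  have h1 : ‖∫ r in a..b, f r‖ ≤ m := intervalIntegral.norm_integral_le_integral_norm hab.le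
  have hba : 0 < b - a := by linarith
  have h2 : 0 ≤ ∫ r in a..b, (‖f r‖ - m / (b - a)) ^ 2 :=
    intervalIntegral.integral_nonneg hab.le (fun u _ => sq_nonneg _)
  have h3 : ∫ r in a..b, (‖f r‖ - m / (b - a)) ^ 2 =
      S - 2 * (m / (b - a)) * m + (m / (b - a)) ^ 2 * (b - a) := by
    have h4 : (fun r => (‖f r‖ - m / (b - a)) ^ 2) =
        fun r => (‖f r‖ ^ 2 - 2 * (m / (b - a)) * ‖f r‖) + (m / (b - a)) ^ 2 := by
      funext r; ring
    rw [h4, intervalIntegral.integral_add (hi2.sub (hi1.const_mul _)) intervalIntegrable_const,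
      intervalIntegral.integral_sub hi2 (hi1.const_mul _),
      intervalIntegral.integral_const_mul, intervalIntegral.integral_const, smul_eq_mul]
    ring
  rw [h3] at h2
  have h5 : S - 2 * (m / (b - a)) * m + (m / (b - a)) ^ 2 * (b - a) = S - m ^ 2 / (b - a) := by
    field_simp
    ring
  rw [h5] at h2
  have h6 : m ^ 2 ≤ (b - a) * S := by
    have h7 : m ^ 2 / (b - a) ≤ S := by linarith
    rw [div_le_iff₀ hba] at h7
    linarith
  calc _ ≤ m ^ 2 := pow_le_pow_left₀ (norm_nonneg _) h1 2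
    _ ≤ _ := h6

variable {H : Type*} [NormedAddCommGroup H] [InnerProductSpace ℝ H]

/-- The energy inequality. -/
theorem energy_ineq [CompleteSpace H] (A : H →L[ℝ] H)
    (hA : ∀ x y, ⟪A x, y⟫_ℝ = ⟪x, A y⟫_ℝ)
    {z G : ℝ → H} {y₀ : H} {R L κ : ℝ} (hκ : 0 < κ)
    (hzm : AEStronglyMeasurable z volume) (hzb : ∀ t, ‖z t‖ ≤ R)
    (hGm : AEStronglyMeasurable G volume) (hGb : ∀ t, ‖G t‖ ≤ L)
    (hyA : ∀ᵐ t, 0 < t → A (z t) = y₀ + ∫ s in (0 : ℝ)..t, G s)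
    (hco : ∀ᵐ t, 0 < t → κ * ‖z t‖ ^ 2 ≤ - (2 * ⟪G t, z t⟫_ℝ)) :
    ∀ᵐ s, 0 < s → ∀ t, s ≤ t → κ * ∫ r in s..t, ‖z r‖ ^ 2 ≤ ⟪A (z s), z s⟫_ℝ := by
  have hR : 0 ≤ R := (norm_nonneg _).trans (hzb 0)
  have hL : 0 ≤ L := (norm_nonneg _).trans (hGb 0)
  have hfi : ∀ a b, IntervalIntegrable (fun r => ‖z r‖ ^ 2) volume a b := sqInt hzm hzb
  have hf0 : ∀ t, 0 ≤ ‖z t‖ ^ 2 := fun t => sq_nonneg _
  have hgi : ∀ a b, IntervalIntegrable (fun r => 2 * ⟪G r, z r⟫_ℝ) volume a b := fun a b =>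
    intInt (R := 2 * (L * R)) ((hGm.inner hzm).const_mul 2) (fun t => by
      rw [norm_mul, Real.norm_of_nonneg (by norm_num : (0 : ℝ) ≤ 2)]
      have h1 := norm_inner_le_norm (𝕜 := ℝ) (G t) (z t)
      have h2 : ‖G t‖ * ‖z t‖ ≤ L * R := mul_le_mul (hGb t) (hzb t) (norm_nonneg _) hL
      linarith) a b
  have hebound : ∀ t, |⟪A (z t), z t⟫_ℝ| ≤ ‖A‖ * ‖z t‖ ^ 2 := fun t => by
    have h1 := abs_real_inner_le_norm (A (z t)) (z t)
    have h2 := A.le_opNorm (z t)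
    calc _ ≤ ‖A (z t)‖ * ‖z t‖ := h1
      _ ≤ ‖A‖ * ‖z t‖ * ‖z t‖ := mul_le_mul_of_nonneg_right h2 (norm_nonneg _)
      _ = _ := by ring
  filter_upwards [energy_identity A hA hzm hzb hGm hGb hyA] with s hs hs0
  have hid := hs hs0
  -- e(t) ≤ e(s) - κ F(t)
  have hdec : ∀ᵐ t, s ≤ t →
      ⟪A (z t), z t⟫_ℝ ≤ ⟪A (z s), z s⟫_ℝ - κ * ∫ r in s..t, ‖z r‖ ^ 2 := by
    filter_upwards [hid] with t ht hst
    have h1 := ht (lt_of_lt_of_le hs0 hst)
    have h2 : ∫ r in s..t, κ * ‖z r‖ ^ 2 ≤ ∫ r in s..t, -(2 * ⟪G r, z r⟫_ℝ) := by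
      apply intervalIntegral.integral_mono_ae_restrict hst ((hfi s t).const_mul κ) (hgi s t).neg
      rw [EventuallyLE, ae_restrict_iff' measurableSet_Icc]
      filter_upwards [hco] with r hr hr2
      exact hr (lt_of_lt_of_le hs0 hr2.1)
    rw [intervalIntegral.integral_neg, intervalIntegral.integral_const_mul] at h2
    linarith
  by_contra hcon
  push Not at hcon
  obtain ⟨t₀, hst₀, ht₀⟩ := hcon
  set c := (κ * ∫ r in s..t₀, ‖z r‖ ^ 2) - ⟪A (z s), z s⟫_ℝ with hc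
  have hc0 : 0 < c := by linarith
  have hlow : ∀ᵐ t, t₀ < t → c ≤ ‖A‖ * ‖z t‖ ^ 2 := by
    filter_upwards [hdec] with t ht htt
    have h1 := ht (by linarith)
    have h2 : κ * ∫ r in s..t₀, ‖z r‖ ^ 2 ≤ κ * ∫ r in s..t, ‖z r‖ ^ 2 :=
      mul_le_mul_of_nonneg_left (integral_mono_right hfi hf0 htt.le) hκ.le
    have h3 := (abs_le.1 (hebound t)).1
    linarith
  obtain ⟨T, hT1, -, hT3⟩ := ae_exists_gt hdec
    (show t₀ + (‖A‖ * (2 * ‖A‖ * R ^ 2) / (κ * c) + 1) <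
      t₀ + (‖A‖ * (2 * ‖A‖ * R ^ 2) / (κ * c) + 1) + 1 by linarith)
  have hX0 : 0 ≤ ‖A‖ * (2 * ‖A‖ * R ^ 2) / (κ * c) := by positivity
  have hTt : t₀ < T := by linarith
  have h4 := hT3 (by linarith)
  have h5 : c * (T - t₀) ≤ ∫ r in t₀..T, ‖A‖ * ‖z r‖ ^ 2 :=
    const_le_integral hTt.le ((hfi t₀ T).const_mul _) (by
      filter_upwards [hlow] with r hr h6 _ using hr h6)
  rw [intervalIntegral.integral_const_mul] at h5
  have h6 : ∫ r in t₀..T, ‖z r‖ ^ 2 ≤ ∫ r in s..T, ‖z r‖ ^ 2 := integral_mono_left hfi hf0 hst₀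
  have h7 : ‖A‖ * ‖z s‖ ^ 2 ≤ ‖A‖ * R ^ 2 := by
    apply mul_le_mul_of_nonneg_left _ (norm_nonneg _)
    exact pow_le_pow_left₀ (norm_nonneg _) (hzb s) 2
  have h8 : ‖A‖ * ‖z T‖ ^ 2 ≤ ‖A‖ * R ^ 2 := by
    apply mul_le_mul_of_nonneg_left _ (norm_nonneg _)
    exact pow_le_pow_left₀ (norm_nonneg _) (hzb T) 2
  have h9 : κ * ∫ r in s..T, ‖z r‖ ^ 2 ≤ 2 * ‖A‖ * R ^ 2 := by
    have h10 := (abs_le.1 (hebound s)).2
    have h11 := (abs_le.1 (hebound T)).1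
    linarith
  have h12 : κ * (c * (T - t₀)) ≤ ‖A‖ * (2 * ‖A‖ * R ^ 2) := by
    calc κ * (c * (T - t₀)) ≤ κ * (‖A‖ * ∫ r in t₀..T, ‖z r‖ ^ 2) :=
          mul_le_mul_of_nonneg_left h5 hκ.le
      _ = ‖A‖ * (κ * ∫ r in t₀..T, ‖z r‖ ^ 2) := by ring
      _ ≤ ‖A‖ * (κ * ∫ r in s..T, ‖z r‖ ^ 2) := by gcongr
      _ ≤ _ := by gcongr
  have h13 : ‖A‖ * (2 * ‖A‖ * R ^ 2) / (κ * c) + 1 < T - t₀ := by linarith
  have h14 : T - t₀ ≤ ‖A‖ * (2 * ‖A‖ * R ^ 2) / (κ * c) := by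
    rw [le_div_iff₀ (by positivity)]
    linarith
  linarith

end Pool.Agent.N219.DE
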