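import Mathlib

/-!
# Degenerate evolution equations `A u' = Q(u)`: data, solutions, statements
-/

open MeasureTheory Set Filter Topology

namespace Pool.Agent.N219.DE

/-- The data `(A, B, V, up)` satisfy (H1), (H3), (H4), (H5) of the problem, over `𝕜 = ℝ` or `ℂ`.
Here `Q(u) = B(u,u)` and `T x = Q'(up) x = 2 B(up, x)`. -/
structure Hyp {𝕜 : Type*} [RCLike 𝕜] {H : Type*} [NormedAddCommGroup H] [InnerProductSpace 𝕜 H]
    [CompleteSpace H] (A : H →L[𝕜] H) (V : Submodule 𝕜 H) (B : H →L[𝕜] H →L[𝕜] H)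
    (up : H) : Prop where
  /-- (H1): `A` is self-adjoint -/
  A_self : ∀ x y, inner 𝕜 (A x) y = inner 𝕜 x (A y)
  /-- (H1): `V` is closed -/
  V_closed : IsClosed (V : Set H)
  /-- (H1): `V` is a proper subspace -/
  V_ne_top : V ≠ ⊤
  /-- (H1): `V^⊥` is finite dimensional -/
  V_fin : FiniteDimensional 𝕜 Vᗮ
  /-- (H1): `B` is symmetric -/
  B_symm : ∀ x y, B x y = B y x
  /-- (H1): `B` takes values in `V` -/
  B_mem : ∀ x y, B x y ∈ V
  /-- (H4): `A` is injective -/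
  A_inj : Function.Injective A
  /-- (H5): the compression of `A` to `V^⊥` is invertible -/
  A_inv : Function.Bijective (fun x : Vᗮ => (Vᗮ).orthogonalProjectionOnto (A x))
  /-- (H3): `Q(up) = 0` -/
  Q_zero : B up up = 0
  /-- (H3): `T = Q'(up)` is self-adjoint -/
  T_self : ∀ x y, inner 𝕜 ((2 : 𝕜) • B up x) y = inner 𝕜 x ((2 : 𝕜) • B up y)
  /-- (H3): `ker T = V^⊥` -/
  T_ker : ∀ x, (2 : 𝕜) • B up x = 0 ↔ x ∈ Vᗮ
  /-- (H3): `T ≤ -δ` on `V` -/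
  T_neg : ∃ δ : ℝ, 0 < δ ∧ ∀ x ∈ V,
    RCLike.re (inner 𝕜 ((2 : 𝕜) • B up x) x) ≤ -δ * ‖x‖ ^ 2
  /-- (H3): Kawashima condition -/
  Kaw : ∃ K : H →L[𝕜] H, (∀ x y, inner 𝕜 (K x) y = -inner 𝕜 x (K y)) ∧
    ∃ γ : ℝ, 0 < γ ∧ ∀ x,
      γ * ‖x‖ ^ 2 ≤ RCLike.re (inner 𝕜 (K (A x) - (2 : 𝕜) • B up x) x)

/-- `u` is a solution on `ℝ₊ = [0,∞)` of `A u' = Q(u)`: `u` is strongly measurable and essentially
bounded on `ℝ₊`, and `A u` coincides almost everywhere on `ℝ₊` with a function `y` which is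
absolutely continuous on every `[0,S]` and satisfies `y' = Q(u)` almost everywhere. -/
structure IsSol {H : Type*} [NormedAddCommGroup H] [NormedSpace ℝ H] (A Q : H → H)
    (u : ℝ → H) : Prop where
  meas : AEStronglyMeasurable u (volume.restrict (Ici 0))
  bdd : ∃ R : ℝ, ∀ᵐ t, 0 ≤ t → ‖u t‖ ≤ R
  eqn : ∃ y : ℝ → H, (∀ᵐ t, 0 ≤ t → A (u t) = y t) ∧
    (∀ S : ℝ, 0 ≤ S → AbsolutelyContinuousOnInterval y 0 S) ∧
    (∀ᵐ t, 0 ≤ t → HasDerivAt y (Q (u t)) t)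

/-- pointwise exponential decay of `u - v` on `ℝ₊`, almost everywhere, with constants `C`, `β` -/
def ExpDecay {H : Type*} [NormedAddCommGroup H] (C β : ℝ) (u : ℝ → H) (v : H) : Prop :=
  ∀ᵐ t, 0 ≤ t → ‖u t - v‖ ≤ C * Real.exp (-β * t)

/-- The positive result for given data: there are `ε, C, β > 0` such that for every solution `u`
on `ℝ₊` with `ess sup ‖u - up‖ ≤ ε`

* there is an equilibrium `v` (`Q(v) = 0`) with `‖u(t) - v‖ ≤ C e^{-βt}` a.e., and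
* the following are equivalent: `u - up ∈ L²(ℝ₊)`; the conserved quantity
  `P_{V^⊥} A (u - up)` vanishes a.e.; `‖u(t) - up‖ ≤ C e^{-βt}` a.e.;
  `‖u(t) - up‖ ≤ C' e^{-β't}` a.e. for some `C'` and `β' > 0`. -/
def PositiveResult {𝕜 : Type*} [RCLike 𝕜] {H : Type*} [NormedAddCommGroup H]
    [InnerProductSpace 𝕜 H] [NormedSpace ℝ H] [CompleteSpace H] (A : H →L[𝕜] H)
    (V : Submodule 𝕜 H) (B : H →L[𝕜] H →L[𝕜] H) (up : H) : Prop :=
  ∃ ε C β : ℝ, 0 < ε ∧ 0 < C ∧ 0 < β ∧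
    ∀ u : ℝ → H, IsSol (fun x => A x) (fun x => B x x) u →
      (∀ᵐ t, 0 ≤ t → ‖u t - up‖ ≤ ε) →
      (∃ v, B v v = 0 ∧ ExpDecay C β u v) ∧
      List.TFAE [
        MemLp (fun t => u t - up) 2 (volume.restrict (Ici 0)),
        ∀ᵐ t, 0 ≤ t → (Vᗮ).orthogonalProjectionOnto (A (u t - up)) = 0,
        ExpDecay C β u up,
        ∃ C' β' : ℝ, 0 < β' ∧ ExpDecay C' β' u up]

/-- Failure of the literal reading of Q1 for given data: arbitrarily close to `up` there are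
solutions which do not decay to `up` (in fact constant ones). -/
def LiteralFails {𝕜 : Type*} [RCLike 𝕜] {H : Type*} [NormedAddCommGroup H]
    [InnerProductSpace 𝕜 H] [NormedSpace ℝ H] (A : H →L[𝕜] H)
    (B : H →L[𝕜] H →L[𝕜] H) (up : H) : Prop :=
  ∀ ε : ℝ, 0 < ε → ∃ v : H, IsSol (fun x => A x) (fun x => B x x) (fun _ => v) ∧
    ‖v - up‖ ≤ ε ∧ ∀ C β : ℝ, 0 < β → ¬ ExpDecay C β (fun _ => v) up

end Pool.Agent.N219.DE
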