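import Mathlib

/-!
# Energy identity for `A z' = G` with a bounded symmetric, possibly degenerate `A`
-/

open MeasureTheory Set Filter Topology
open scoped InnerProductSpace

namespace Pool.Agent.N219.DE

variable {H : Type*} [NormedAddCommGroup H] [InnerProductSpace ℝ H]

/-- Symmetric difference identity. -/
theorem quad_diff (A : H →L[ℝ] H) (hA : ∀ x y, ⟪A x, y⟫_ℝ = ⟪x, A y⟫_ℝ) (p q : H) :
    ⟪A p, p⟫_ℝ - ⟪A q, q⟫_ℝ = ⟪A p - A q, p + q⟫_ℝ := by
  have h1 : ⟪A p, q⟫_ℝ = ⟪A q, p⟫_ℝ := by rw [hA p q, real_inner_comm]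
  rw [inner_sub_left, inner_add_right, inner_add_right]
  linarith

/-- Derivative of the quadratic form along a continuous curve `v` such that `A v` is
differentiable. -/
theorem hasDerivAt_quad (A : H →L[ℝ] H) (hA : ∀ x y, ⟪A x, y⟫_ℝ = ⟪x, A y⟫_ℝ)
    {v : ℝ → H} {t : ℝ} {g : H} (hv : ContinuousAt v t)
    (hd : HasDerivAt (fun s => A (v s)) g t) :
    HasDerivAt (fun s => ⟪A (v s), v s⟫_ℝ) (2 * ⟪g, v t⟫_ℝ) t := by
  rw [hasDerivAt_iff_tendsto_slope] at hd ⊢
  have h1 : (slope (fun s => ⟪A (v s), v s⟫_ℝ) t) =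
      fun s => ⟪slope (fun s => A (v s)) t s, v s + v t⟫_ℝ := by
    funext s
    rw [slope_def_field, slope_def_module, real_inner_smul_left, ← quad_diff A hA]
    ring
  rw [h1]
  have h2 : Tendsto (fun s => v s + v t) (𝓝[≠] t) (𝓝 (v t + v t)) :=
    (hv.tendsto.mono_left nhdsWithin_le_nhds).add tendsto_const_nhds
  have h3 := Filter.Tendsto.inner (𝕜 := ℝ) hd h2
  have h4 : ⟪g, v t + v t⟫_ℝ = 2 * ⟪g, v t⟫_ℝ := by rw [inner_add_right]; ring
  rw [h4] at h3
  exact h3

/-- bounded a.e.-strongly measurable functions are locally integrable -/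
theorem locInt {E : Type*} [NormedAddCommGroup E] {z : ℝ → E} {R : ℝ}
    (hzm : AEStronglyMeasurable z volume) (hzb : ∀ t, ‖z t‖ ≤ R) :
    LocallyIntegrable z volume := by
  have h1 : MemLp z ⊤ (volume : Measure ℝ) :=
    memLp_top_of_bound hzm R (Eventually.of_forall hzb)
  exact h1.locallyIntegrable le_top

theorem intInt {E : Type*} [NormedAddCommGroup E] {z : ℝ → E} {R : ℝ}
    (hzm : AEStronglyMeasurable z volume) (hzb : ∀ t, ‖z t‖ ≤ R) (a b : ℝ) :
    IntervalIntegrable z volume a b := by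
  rw [intervalIntegrable_iff]
  exact ((locInt hzm hzb).integrableOn_isCompact isCompact_uIcc).mono_set uIoc_subset_uIcc

theorem continuous_prim [CompleteSpace H] {z : ℝ → H} {R : ℝ}
    (hzm : AEStronglyMeasurable z volume) (hzb : ∀ t, ‖z t‖ ≤ R) :
    Continuous (fun t => ∫ s in (0 : ℝ)..t, z s) :=
  intervalIntegral.continuous_primitive (fun a b => intInt hzm hzb a b) 0

/-- The energy identity. -/
theorem energy_identity [CompleteSpace H] (A : H →L[ℝ] H)
    (hA : ∀ x y, ⟪A x, y⟫_ℝ = ⟪x, A y⟫_ℝ)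
    {z G : ℝ → H} {y₀ : H} {R L : ℝ}
    (hzm : AEStronglyMeasurable z volume) (hzb : ∀ t, ‖z t‖ ≤ R)
    (hGm : AEStronglyMeasurable G volume) (hGb : ∀ t, ‖G t‖ ≤ L)
    (hyA : ∀ᵐ t, 0 < t → A (z t) = y₀ + ∫ s in (0 : ℝ)..t, G s) :
    ∀ᵐ s, 0 < s → ∀ᵐ t, 0 < t →
      ⟪A (z t), z t⟫_ℝ - ⟪A (z s), z s⟫_ℝ = ∫ r in s..t, 2 * ⟪G r, z r⟫_ℝ := by
  set Y : ℝ → H := fun t => y₀ + ∫ s in (0 : ℝ)..t, G s with hYdef
  set Z : ℝ → H := fun t => ∫ s in (0 : ℝ)..t, z s with hZdef
  have hYc : Continuous Y := continuous_const.add (continuous_prim hGm hGb)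
  have hZc : Continuous Z := continuous_prim hzm hzb
  have hR : 0 ≤ R := (norm_nonneg _).trans (hzb 0)
  have hL : 0 ≤ L := (norm_nonneg _).trans (hGb 0)
  have hZd : ∀ᵐ t, HasDerivAt Z (z t) t := by
    filter_upwards [_root_.LocallyIntegrable.ae_hasDerivAt_integral (locInt hzm hzb)] with t ht using ht 0
  have hYd : ∀ᵐ t, HasDerivAt Y (G t) t := by
    filter_upwards [_root_.LocallyIntegrable.ae_hasDerivAt_integral (locInt hGm hGb)] with t ht
    exact (ht 0).const_add y₀
  have hZsub : ∀ a b : ℝ, Z b - Z a = ∫ s in a..b, z s := fun a b =>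
    intervalIntegral.integral_interval_sub_left (intInt hzm hzb _ _) (intInt hzm hzb _ _)
  have hYsub : ∀ a b : ℝ, Y b - Y a = ∫ s in a..b, G s := fun a b => by
    rw [hYdef]
    simp only [add_sub_add_left_eq_sub]
    exact intervalIntegral.integral_interval_sub_left (intInt hGm hGb _ _) (intInt hGm hGb _ _)
  have hAZ : ∀ a b : ℝ, 0 ≤ a → 0 ≤ b → A (Z b - Z a) = ∫ s in a..b, Y s := by
    intro a b ha hb
    rw [hZsub, ← A.intervalIntegral_comp_comm (intInt hzm hzb a b)]
    apply intervalIntegral.integral_congr_ae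
    filter_upwards [hyA] with s hs hs2
    apply hs
    rw [uIoc, mem_Ioc] at hs2
    exact lt_of_le_of_lt (le_min ha hb) hs2.1
  set W : ℝ → H := fun t => ∫ s in (0 : ℝ)..t, Y s with hWdef
  have hWd : ∀ t, HasDerivAt W (Y t) t := fun t =>
    (hYc.integral_hasStrictDerivAt 0 t).hasDerivAt
  have hWsub : ∀ a b : ℝ, W b - W a = ∫ s in a..b, Y s := fun a b =>
    intervalIntegral.integral_interval_sub_left (hYc.intervalIntegrable _ _)
      (hYc.intervalIntegrable _ _)
  -- mollification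
  set v : ℝ → ℝ → H := fun η t => η⁻¹ • (Z (t + η) - Z t) with hvdef
  set gg : ℝ → ℝ → H := fun η t => η⁻¹ • (Y (t + η) - Y t) with hggdef
  have hvc : ∀ η, Continuous (v η) := fun η => by
    rw [hvdef]; exact continuous_const.smul ((hZc.comp (continuous_id.add continuous_const)).sub hZc)
  have hgc : ∀ η, Continuous (gg η) := fun η => by
    rw [hggdef]; exact continuous_const.smul ((hYc.comp (continuous_id.add continuous_const)).sub hYc)
  have hvd : ∀ η, 0 < η → ∀ t, 0 < t → HasDerivAt (fun s => A (v η s)) (gg η t) t := by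
    intro η hη t ht
    have h1 : HasDerivAt (fun s => η⁻¹ • (W (s + η) - W s)) (gg η t) t := by
      have h2 : HasDerivAt (fun s => W (s + η)) (Y (t + η)) t :=
        HasDerivAt.comp_add_const t η (hWd (t + η))
      exact (h2.sub (hWd t)).const_smul η⁻¹
    refine h1.congr_of_eventuallyEq ?_
    filter_upwards [lt_mem_nhds ht] with s hs
    simp only [hvdef]
    rw [map_smul, hAZ s (s + η) hs.le (by linarith), hWsub]
  have hFTC : ∀ η, 0 < η → ∀ s t, 0 < s → 0 < t →
      ∫ r in s..t, 2 * ⟪gg η r, v η r⟫_ℝ = ⟪A (v η t), v η t⟫_ℝ - ⟪A (v η s), v η s⟫_ℝ := by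
    intro η hη s t hs ht
    apply intervalIntegral.integral_eq_sub_of_hasDerivAt
    · intro x hx
      have hx0 : 0 < x := by
        rw [mem_uIcc] at hx
        rcases hx with h | h <;> linarith [h.1]
      exact hasDerivAt_quad A hA (hvc η).continuousAt (hvd η hη x hx0)
    · apply Continuous.intervalIntegrable
      exact continuous_const.mul ((hgc η).inner (hvc η))
  -- pointwise limits
  have hlimv : ∀ t, HasDerivAt Z (z t) t → Tendsto (fun η => v η t) (𝓝[>] 0) (𝓝 (z t)) := by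
    intro t ht
    exact ht.tendsto_slope_zero.mono_left
      (nhdsWithin_mono 0 (fun x hx => ne_of_gt hx))
  have hlimg : ∀ t, HasDerivAt Y (G t) t → Tendsto (fun η => gg η t) (𝓝[>] 0) (𝓝 (G t)) := by
    intro t ht
    exact ht.tendsto_slope_zero.mono_left
      (nhdsWithin_mono 0 (fun x hx => ne_of_gt hx))
  have hbv : ∀ η, 0 < η → ∀ t, ‖v η t‖ ≤ R := by
    intro η hη t
    simp only [hvdef]
    rw [hZsub, norm_smul, norm_inv, Real.norm_of_nonneg hη.le]
    have h1 : ‖∫ s in t..(t + η), z s‖ ≤ R * |t + η - t| :=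
      intervalIntegral.norm_integral_le_of_norm_le_const (fun x _ => hzb x)
    rw [add_sub_cancel_left, abs_of_pos hη] at h1
    rw [inv_mul_le_iff₀ hη]
    linarith
  have hbg : ∀ η, 0 < η → ∀ t, ‖gg η t‖ ≤ L := by
    intro η hη t
    simp only [hggdef]
    rw [hYsub, norm_smul, norm_inv, Real.norm_of_nonneg hη.le]
    have h1 : ‖∫ s in t..(t + η), G s‖ ≤ L * |t + η - t| :=
      intervalIntegral.norm_integral_le_of_norm_le_const (fun x _ => hGb x)
    rw [add_sub_cancel_left, abs_of_pos hη] at h1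
    rw [inv_mul_le_iff₀ hη]
    linarith
  have hDCT : ∀ s t : ℝ, Tendsto (fun η => ∫ r in s..t, 2 * ⟪gg η r, v η r⟫_ℝ) (𝓝[>] 0)
      (𝓝 (∫ r in s..t, 2 * ⟪G r, z r⟫_ℝ)) := by
    intro s t
    apply intervalIntegral.tendsto_integral_filter_of_dominated_convergence (fun _ => 2 * (L * R))
    · exact Eventually.of_forall fun η =>
        (continuous_const.mul ((hgc η).inner (hvc η))).aestronglyMeasurable
    · filter_upwards [self_mem_nhdsWithin] with η hη
      refine Eventually.of_forall fun x _ => ?_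
      rw [norm_mul, Real.norm_of_nonneg (by norm_num : (0 : ℝ) ≤ 2)]
      have h1 := norm_inner_le_norm (𝕜 := ℝ) (gg η x) (v η x)
      have h2 : ‖gg η x‖ * ‖v η x‖ ≤ L * R :=
        mul_le_mul (hbg η hη x) (hbv η hη x) (norm_nonneg _) hL
      linarith
    · exact intervalIntegrable_const
    · filter_upwards [hZd, hYd] with x hx1 hx2 _
      exact ((hlimg x hx2).inner (hlimv x hx1)).const_mul 2
  filter_upwards [hZd] with s hs hs0
  filter_upwards [hZd] with t ht ht0
  have h1 : Tendsto (fun η => ⟪A (v η t), v η t⟫_ℝ - ⟪A (v η s), v η s⟫_ℝ) (𝓝[>] 0)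
      (𝓝 (⟪A (z t), z t⟫_ℝ - ⟪A (z s), z s⟫_ℝ)) := by
    have h2 := hlimv t ht
    have h3 := hlimv s hs
    exact (((A.continuous.tendsto _).comp h2).inner h2).sub
      (((A.continuous.tendsto _).comp h3).inner h3)
  refine tendsto_nhds_unique (h1.congr' ?_) (hDCT s t)
  filter_upwards [self_mem_nhdsWithin] with η hη
  exact (hFTC η hη s t hs0 ht0).symm

end Pool.Agent.N219.DE
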