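import Pool.Agent.N219.DE.Point

/-!
# The real Hilbert space version: hypotheses, coercivity and nearby equilibria
-/

open MeasureTheory Set Filter Topology
open scoped InnerProductSpace

namespace Pool.Agent.N219.DE

variable {H : Type*} [NormedAddCommGroup H] [InnerProductSpace ℝ H]

/-- Hypotheses used in the real Hilbert space version; `N` plays the role of `V^⊥`. -/
structure RHyp (A : H →L[ℝ] H) (N : Submodule ℝ H) (B : H →L[ℝ] H →L[ℝ] H) (up : H)
    (δ : ℝ) : Prop where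
  A_self : ∀ x y, ⟪A x, y⟫_ℝ = ⟪x, A y⟫_ℝ
  fin : FiniteDimensional ℝ N
  B_symm : ∀ x y, B x y = B y x
  B_perp : ∀ x y, ∀ n ∈ N, ⟪B x y, n⟫_ℝ = 0
  A_nd : ∀ x ∈ N, (∀ y ∈ N, ⟪A x, y⟫_ℝ = 0) → x = 0
  eq_zero : B up up = 0
  T_self : ∀ x y, ⟪B up x, y⟫_ℝ = ⟪x, B up y⟫_ℝ
  T_ker : ∀ x ∈ N, B up x = 0
  δ_pos : 0 < δ
  T_neg : ∀ x, (∀ n ∈ N, ⟪x, n⟫_ℝ = 0) → 2 * ⟪B up x, x⟫_ℝ ≤ -δ * ‖x‖ ^ 2

/-- the space `{x : P_N A x = 0}` -/
def WW (A : H →L[ℝ] H) (N : Submodule ℝ H) : Submodule ℝ H where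
  carrier := {x | ∀ n ∈ N, ⟪A x, n⟫_ℝ = 0}
  zero_mem' := by intro n _; simp
  add_mem' := by
    intro x y hx hy n hn
    rw [map_add, inner_add_left, hx n hn, hy n hn, add_zero]
  smul_mem' := by
    intro c x hx n hn
    rw [map_smul, inner_smul_left, hx n hn, mul_zero]

section
variable {A : H →L[ℝ] H} {N : Submodule ℝ H} {B : H →L[ℝ] H →L[ℝ] H} {up : H} {δ : ℝ}

theorem proj_zero_iff [N.HasOrthogonalProjection] (x : H) :
    N.starProjection x = 0 ↔ ∀ n ∈ N, ⟪x, n⟫_ℝ = 0 := by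
  rw [Submodule.starProjection_apply_eq_zero_iff, Submodule.mem_orthogonal']

theorem nondeg [FiniteDimensional ℝ N] (h : RHyp A N B up δ) :
    ∃ c : ℝ, 0 ≤ c ∧ ∀ q ∈ N, ‖q‖ ≤ c * ‖N.starProjection (A q)‖ := by
  set f : N →ₗ[ℝ] H := ((N.starProjection ∘L A : H →L[ℝ] H) : H →ₗ[ℝ] H).comp N.subtype with hf
  have hker : LinearMap.ker f = ⊥ := by
    rw [LinearMap.ker_eq_bot']
    intro m hm
    have h1 : N.starProjection (A m) = 0 := hm
    rw [proj_zero_iff] at h1
    have h2 := h.A_nd m m.2 h1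
    exact Subtype.ext h2
  obtain ⟨K, hK0, hK⟩ := f.exists_antilipschitzWith hker
  refine ⟨K, K.2, fun q hq => ?_⟩
  have h1 := hK.le_mul_dist (⟨q, hq⟩ : N) 0
  rw [map_zero, dist_zero_right, dist_zero_right] at h1
  exact h1

/-- the compression of `T = 2 B(up,·)` -/
theorem T_form [N.HasOrthogonalProjection] (h : RHyp A N B up δ) (x : H) :
    2 * ⟪B up x, x⟫_ℝ ≤ -δ * ‖x - N.starProjection x‖ ^ 2 := by
  set q := N.starProjection x with hq
  have hqN : q ∈ N := Submodule.starProjection_apply_mem N x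
  have h1 : B up x = B up (x - q) := by rw [map_sub, h.T_ker q hqN, sub_zero]
  have h2 : ⟪B up x, x⟫_ℝ = ⟪B up (x - q), x - q⟫_ℝ := by
    rw [h1, h.T_self, h1, ← h.T_self]
  rw [h2]
  exact h.T_neg _ (fun n hn => Submodule.starProjection_inner_eq_zero x n hn)

theorem pyth [N.HasOrthogonalProjection] (x : H) :
    ‖x‖ ^ 2 = ‖N.starProjection x‖ ^ 2 + ‖x - N.starProjection x‖ ^ 2 := by
  set q := N.starProjection x with hq
  have hqN : q ∈ N := Submodule.starProjection_apply_mem N x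
  have h1 : ⟪x - q, q⟫_ℝ = 0 := Submodule.starProjection_inner_eq_zero x q hqN
  have h2 : x = q + (x - q) := by abel
  have h3 : ‖q + (x - q)‖ ^ 2 = ‖q‖ ^ 2 + 2 * ⟪q, x - q⟫_ℝ + ‖x - q‖ ^ 2 := norm_add_sq_real _ _
  rw [← h2, real_inner_comm, h1] at h3
  linarith

/-- coercivity on `{P_N A x = 0}` -/
theorem coercive_W [FiniteDimensional ℝ N] (h : RHyp A N B up δ) :
    ∃ κ : ℝ, 0 < κ ∧ ∀ x ∈ WW A N, κ * ‖x‖ ^ 2 ≤ -(2 * (2 * ⟪B up x, x⟫_ℝ)) := by
  obtain ⟨c, hc0, hc⟩ := nondeg h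
  have hden : 0 < 1 + (c * ‖A‖) ^ 2 := by positivity
  have hδ := h.δ_pos
  refine ⟨2 * δ / (1 + (c * ‖A‖) ^ 2), by positivity, ?_⟩
  intro x hx
  set q := N.starProjection x with hq
  have hqN : q ∈ N := Submodule.starProjection_apply_mem N x
  have h1 : N.starProjection (A x) = 0 := (proj_zero_iff _).2 hx
  have h2 : N.starProjection (A q) = - N.starProjection (A (x - q)) := by
    rw [map_sub, map_sub, h1]; simp
  have h3 : ‖q‖ ≤ c * (‖A‖ * ‖x - q‖) := by
    refine (hc q hqN).trans ?_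
    apply mul_le_mul_of_nonneg_left _ hc0
    rw [h2, norm_neg]
    exact (Submodule.norm_starProjection_apply_le N _).trans (A.le_opNorm _)
  have h4 : ‖x‖ ^ 2 ≤ (1 + (c * ‖A‖) ^ 2) * ‖x - q‖ ^ 2 := by
    rw [pyth (N := N) x]
    have h5 : ‖q‖ ^ 2 ≤ (c * (‖A‖ * ‖x - q‖)) ^ 2 := pow_le_pow_left₀ (norm_nonneg _) h3 2
    nlinarith
  have h6 := T_form (N := N) h x
  rw [← hq] at h6
  have h7 : 2 * δ / (1 + (c * ‖A‖) ^ 2) * ‖x‖ ^ 2 ≤ 2 * δ * ‖x - q‖ ^ 2 := by
    rw [div_mul_eq_mul_div, div_le_iff₀ hden]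
    nlinarith
  linarith

theorem S_surj [CompleteSpace H] [FiniteDimensional ℝ N] (h : RHyp A N B up δ) :
    ((2 : ℝ) • B up + N.starProjection ∘L A : H →L[ℝ] H).range = ⊤ := by
  have hδ := h.δ_pos
  have hPT : ∀ x, N.starProjection (B up x) = 0 := fun x =>
    (proj_zero_iff _).2 (fun n hn => h.B_perp up x n hn)
  -- Lax-Milgram for `P - T`
  set M : H →L[ℝ] H := N.starProjection - (2 : ℝ) • B up with hM
  have hMco : ∀ x, min 1 δ * ‖x‖ ^ 2 ≤ ⟪M x, x⟫_ℝ := by
    intro x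
    have h1 : ⟪M x, x⟫_ℝ = ⟪N.starProjection x, x⟫_ℝ - 2 * ⟪B up x, x⟫_ℝ := by
      simp [hM, inner_sub_left, real_inner_smul_left]
    have h2 : ⟪N.starProjection x, x⟫_ℝ = ‖N.starProjection x‖ ^ 2 := by
      have h3 : ⟪x - N.starProjection x, N.starProjection x⟫_ℝ = 0 :=
        Submodule.starProjection_inner_eq_zero x _ (Submodule.starProjection_apply_mem N x)
      rw [inner_sub_left, real_inner_self_eq_norm_sq] at h3
      rw [real_inner_comm]
      linarith
    have h3 := T_form (N := N) h x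
    rw [h1, h2, pyth (N := N) x]
    have h4 : min 1 δ * ‖N.starProjection x‖ ^ 2 ≤ 1 * ‖N.starProjection x‖ ^ 2 :=
      mul_le_mul_of_nonneg_right (min_le_left _ _) (sq_nonneg _)
    have h5 : min 1 δ * ‖x - N.starProjection x‖ ^ 2 ≤ δ * ‖x - N.starProjection x‖ ^ 2 :=
      mul_le_mul_of_nonneg_right (min_le_right _ _) (sq_nonneg _)
    linarith
  have hMsurj : ∀ f, ∃ x, M x = f := by
    set Bf : H →L[ℝ] H →L[ℝ] ℝ := (innerSL ℝ).comp M with hBf
    have hco : IsCoercive Bf := ⟨min 1 δ, lt_min one_pos hδ, fun u => by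
      have := hMco u
      have h2 : Bf u u = ⟪M u, u⟫_ℝ := rfl
      rw [h2]
      nlinarith⟩
    intro f
    refine ⟨hco.continuousLinearEquivOfBilin.symm f, ?_⟩
    apply ext_inner_right ℝ
    intro w
    have h1 := hco.continuousLinearEquivOfBilin_apply (hco.continuousLinearEquivOfBilin.symm f) w
    rw [ContinuousLinearEquiv.apply_symm_apply] at h1
    rw [h1]
    rfl
  -- compression of `A` to `N` is surjective
  set g : N →ₗ[ℝ] N := ((N.orthogonalProjectionOnto ∘L A : H →L[ℝ] N) : H →ₗ[ℝ] N).comp N.subtype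
    with hg
  have hgcoe : ∀ q : N, ((g q : N) : H) = N.starProjection (A q) := fun q => rfl
  have hginj : Function.Injective g := by
    rw [← LinearMap.ker_eq_bot, LinearMap.ker_eq_bot']
    intro m hm
    have h1 : N.starProjection (A m) = 0 := by rw [← hgcoe, hm]; rfl
    rw [proj_zero_iff] at h1
    exact Subtype.ext (h.A_nd m m.2 h1)
  have hgsurj : Function.Surjective g := LinearMap.injective_iff_surjective.1 hginj
  rw [LinearMap.range_eq_top]
  intro f
  obtain ⟨x, hx⟩ := hMsurj (-(f - N.starProjection f))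
  have hPidem : ∀ y, N.starProjection (N.starProjection y) = N.starProjection y := fun y =>
    Submodule.starProjection_eq_self_iff.2 (Submodule.starProjection_apply_mem N y)
  have hPx : N.starProjection x = 0 := by
    have h1 := congrArg N.starProjection hx
    simp only [hM, _root_.sub_apply, map_sub, map_neg, _root_.smul_apply, map_smul, hPT,
      hPidem, sub_self, neg_zero, smul_zero, sub_zero] at h1
    exact h1
  have hTx : (2 : ℝ) • B up x = f - N.starProjection f := by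
    simp only [hM, _root_.sub_apply, _root_.smul_apply, hPx, zero_sub, neg_inj] at hx
    exact hx
  obtain ⟨q, hq⟩ := hgsurj ⟨N.starProjection f - N.starProjection (A x),
    N.sub_mem (Submodule.starProjection_apply_mem N _) (Submodule.starProjection_apply_mem N _)⟩
  have hq' : N.starProjection (A q) = N.starProjection f - N.starProjection (A x) := by
    rw [← hgcoe, hq]
  refine ⟨x + q, ?_⟩
  show (2 : ℝ) • B up (x + q) + N.starProjection (A (x + q)) = f
  rw [map_add, h.T_ker q q.2, add_zero, hTx, map_add, map_add, hq']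
  abel

/-- nearby equilibria with prescribed conserved quantity -/
theorem exists_equil [CompleteSpace H] [FiniteDimensional ℝ N] (h : RHyp A N B up δ) {ε : ℝ}
    (hε : 0 < ε) :
    ∃ r : ℝ, 0 < r ∧ ∀ c ∈ N, ‖c‖ < r → ∃ w : H, ‖w‖ < ε ∧
      (2 : ℝ) • B up w + B w w = 0 ∧ N.starProjection (A w) = c := by
  set S : H →L[ℝ] H := (2 : ℝ) • B up + N.starProjection ∘L A with hS
  set Φ : H → H := fun w => S w + B w w with hΦ
  have hd : HasStrictFDerivAt Φ S 0 := by
    have h1 : HasStrictFDerivAt (fun w : H => B w w)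
        ((B 0).comp (ContinuousLinearMap.id ℝ H) + B.flip (id (0 : H))) 0 :=
      HasStrictFDerivAt.clm_apply (B.hasStrictFDerivAt) (hasStrictFDerivAt_id 0)
    have h2 : ((B 0).comp (ContinuousLinearMap.id ℝ H) + B.flip (id (0 : H))) =
        (0 : H →L[ℝ] H) := by
      ext x; simp
    rw [h2] at h1
    have h3 := S.hasStrictFDerivAt (x := (0 : H)).add h1
    rw [add_zero] at h3
    exact h3
  have hmap := hd.map_nhds_eq_of_surj (S_surj h)
  have hΦ0 : Φ 0 = 0 := by simp [hΦ]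
  rw [hΦ0] at hmap
  have h4 : Φ '' (Metric.ball 0 ε) ∈ 𝓝 (0 : H) := by
    rw [← hmap]
    exact image_mem_map (Metric.ball_mem_nhds 0 hε)
  obtain ⟨r, hr0, hr⟩ := Metric.mem_nhds_iff.1 h4
  refine ⟨r, hr0, fun c hc hcr => ?_⟩
  obtain ⟨w, hw1, hw2⟩ := hr (show c ∈ Metric.ball 0 r by simpa using hcr)
  have hw3 : (2 : ℝ) • B up w + N.starProjection (A w) + B w w = c := hw2
  have hPB : ∀ x y, N.starProjection (B x y) = 0 := fun x y =>
    (proj_zero_iff _).2 (fun n hn => h.B_perp x y n hn)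
  have hPidem : ∀ y, N.starProjection (N.starProjection y) = N.starProjection y := fun y =>
    Submodule.starProjection_eq_self_iff.2 (Submodule.starProjection_apply_mem N y)
  have h5 : N.starProjection (A w) = c := by
    have h6 := congrArg N.starProjection hw3
    rw [map_add, map_add, map_smul, hPB, hPB, smul_zero, zero_add, add_zero, hPidem,
      Submodule.starProjection_eq_self_iff.2 hc] at h6
    exact h6
  refine ⟨w, by simpa using hw1, ?_, h5⟩
  rw [h5] at hw3
  have h7 : (2 : ℝ) • B up w + B w w + c = 0 + c := by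
    rw [zero_add, add_right_comm]
    exact hw3
  exact add_right_cancel h7

end

end Pool.Agent.N219.DE
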