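import Pool.Agent.N219.DE.Defs

/-!
# A datum satisfying all hypotheses: `H = ℂ` (as real Hilbert space), `Q(x + iy) = -xy`,
`up = i`, `A(x + iy) = y + i(x + y)`
-/

open MeasureTheory Set Filter Topology
open scoped InnerProductSpace

namespace Pool.Agent.N219.DE

/-- `A(x + iy) = y + i(x + y)` -/
noncomputable def exA : ℂ →L[ℝ] ℂ :=
  Complex.imCLM.smulRight (1 : ℂ) + (Complex.reCLM + Complex.imCLM).smulRight Complex.I

/-- `V = ℝ` -/
noncomputable def exV : Submodule ℝ ℂ := LinearMap.ker (Complex.imCLM : ℂ →ₗ[ℝ] ℝ)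

/-- `B(z,w) = -(re z im w + im z re w)/2` -/
noncomputable def exB : ℂ →L[ℝ] ℂ →L[ℝ] ℂ :=
  Complex.reCLM.smulRight ((-(1 / 2) : ℝ) • (Complex.ofRealCLM ∘L Complex.imCLM)) +
  Complex.imCLM.smulRight ((-(1 / 2) : ℝ) • (Complex.ofRealCLM ∘L Complex.reCLM))

theorem exA_re (z : ℂ) : (exA z).re = z.im := by simp [exA]
theorem exA_im (z : ℂ) : (exA z).im = z.re + z.im := by simp [exA]
theorem exB_re (z w : ℂ) : (exB z w).re = -(z.re * w.im + z.im * w.re) / 2 := by
  simp [exB]; ring
theorem exB_im (z w : ℂ) : (exB z w).im = 0 := by simp [exB]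

theorem cinner (z w : ℂ) : inner ℝ z w = z.re * w.re + z.im * w.im := by
  rw [Complex.inner, Complex.mul_re, Complex.conj_re, Complex.conj_im]; ring

theorem mem_exV (z : ℂ) : z ∈ exV ↔ z.im = 0 := by
  rw [exV, LinearMap.mem_ker]; rfl

theorem mem_exVp (z : ℂ) : z ∈ exVᗮ ↔ z.re = 0 := by
  rw [Submodule.mem_orthogonal']
  constructor
  · intro h
    have := h 1 ((mem_exV 1).2 (by simp))
    rw [cinner] at this
    simpa using this
  · intro h u hu
    rw [mem_exV] at hu
    rw [cinner, h, hu]; ring

theorem cnormsq (z : ℂ) : ‖z‖ ^ 2 = z.re ^ 2 + z.im ^ 2 := by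
  rw [← Complex.normSq_eq_norm_sq, Complex.normSq_apply]; ring

theorem exHyp : Hyp (𝕜 := ℝ) exA exV exB Complex.I where
  A_self x y := by rw [cinner, cinner, exA_re, exA_im, exA_re, exA_im]; ring
  V_closed := by
    have : (exV : Set ℂ) = {z | z.im = 0} := by ext z; exact mem_exV z
    rw [this]
    exact isClosed_eq Complex.continuous_im continuous_const
  V_ne_top := by
    intro h
    have h1 : Complex.I ∈ exV := by rw [h]; trivial
    rw [mem_exV] at h1
    simp at h1
  V_fin := inferInstance
  B_symm x y := by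
    apply Complex.ext
    · rw [exB_re, exB_re]; ring
    · rw [exB_im, exB_im]
  B_mem x y := (mem_exV _).2 (exB_im x y)
  A_inj := by
    intro x y h
    have h1 := congrArg Complex.re h
    have h2 := congrArg Complex.im h
    rw [exA_re, exA_re] at h1
    rw [exA_im, exA_im] at h2
    apply Complex.ext
    · linarith
    · exact h1
  A_inv := by
    set g : (exVᗮ : Submodule ℝ ℂ) →ₗ[ℝ] (exVᗮ : Submodule ℝ ℂ) :=
      (((exVᗮ).orthogonalProjectionOnto ∘L exA : ℂ →L[ℝ] exVᗮ) : ℂ →ₗ[ℝ] exVᗮ).comp
        (exVᗮ).subtype with hg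
    have hinj : Function.Injective g := by
      rw [← LinearMap.ker_eq_bot, LinearMap.ker_eq_bot']
      intro m hm
      have h1 : (exVᗮ).orthogonalProjectionOnto (exA m) = 0 := hm
      rw [Submodule.orthogonalProjectionOnto_eq_zero_iff, Submodule.mem_orthogonal'] at h1
      have h2 := h1 m m.2
      have h3 := (mem_exVp (m : ℂ)).1 m.2
      rw [cinner, exA_re, exA_im, h3] at h2
      apply Subtype.ext
      apply Complex.ext
      · simpa using h3
      · simpa using h2
    exact ⟨hinj, LinearMap.injective_iff_surjective.1 hinj⟩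
  Q_zero := by
    apply Complex.ext
    · rw [exB_re]; simp
    · rw [exB_im]; simp
  T_self x y := by
    rw [real_inner_smul_left, real_inner_smul_right, cinner, cinner, exB_re, exB_im, exB_re, exB_im]
    simp
    ring
  T_ker x := by
    rw [mem_exVp]
    constructor
    · intro h
      have h1 := congrArg Complex.re h
      rw [Complex.real_smul, Complex.re_ofReal_mul, exB_re] at h1
      simp at h1
      exact h1
    · intro h
      apply Complex.ext
      · rw [Complex.real_smul, Complex.re_ofReal_mul, exB_re, h]; simp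
      · rw [Complex.real_smul, Complex.im_ofReal_mul, exB_im]; simp
  T_neg := by
    refine ⟨1, one_pos, fun x hx => ?_⟩
    rw [mem_exV] at hx
    rw [real_inner_smul_left, cinner, exB_re, exB_im, cnormsq, hx]
    simp
    nlinarith
  Kaw := by
    refine ⟨(1 / 2 : ℝ) • (ContinuousLinearMap.mul ℝ ℂ Complex.I), ?_, 1 / 4, by norm_num, ?_⟩
    · intro x y
      have e : ∀ z : ℂ, ((1 / 2 : ℝ) • (ContinuousLinearMap.mul ℝ ℂ Complex.I)) z =
        (1 / 2 : ℝ) • (Complex.I * z) := fun z => rfl
      rw [e, e, real_inner_smul_left, real_inner_smul_right, cinner, cinner]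
      simp
      ring
    · intro x
      have e : ∀ z : ℂ, ((1 / 2 : ℝ) • (ContinuousLinearMap.mul ℝ ℂ Complex.I)) z =
        (1 / 2 : ℝ) • (Complex.I * z) := fun z => rfl
      rw [e, inner_sub_left, real_inner_smul_left, real_inner_smul_left, cinner, cinner,
        exB_re, exB_im, cnormsq]
      simp only [Complex.mul_re, Complex.mul_im, Complex.I_re, Complex.I_im, exA_re, exA_im,
        RCLike.re_to_real]
      nlinarith [sq_nonneg (x.re - x.im)]

end Pool.Agent.N219.DE
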