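import Pool.Agent.N219.DE.Real

/-!
# From the real version to the statements over `ℝ` and `ℂ`
-/

open MeasureTheory Set Filter Topology
open scoped InnerProductSpace

namespace Pool.Agent.N219.DE

section general

variable {𝕜 : Type*} [RCLike 𝕜] {H : Type*} [NormedAddCommGroup H]
    [InnerProductSpace 𝕜 H] [NormedSpace ℝ H] [CompleteSpace H]

theorem positive_of {A : H →L[𝕜] H} {V : Submodule 𝕜 H} {B : H →L[𝕜] H →L[𝕜] H} {up : H}
    (hm : ∃ ε C β : ℝ, 0 < ε ∧ 0 < C ∧ 0 < β ∧
      ∀ u : ℝ → H, IsSol (fun x => A x) (fun x => B x x) u →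
        (∀ᵐ t, 0 ≤ t → ‖u t - up‖ ≤ ε) →
        ∃ v c : H, B v v = 0 ∧ (∀ᵐ t, 0 ≤ t → ‖u t - v‖ ≤ C * Real.exp (-β * t)) ∧
          (∀ᵐ t, 0 ≤ t → (Vᗮ).starProjection (A (u t - up)) = c) ∧ (c = 0 → v = up)) :
    PositiveResult A V B up := by
  obtain ⟨ε, C, β, hε, hC, hβ, hm⟩ := hm
  refine ⟨ε, C, β, hε, hC, hβ, ?_⟩
  intro u hu hus
  obtain ⟨v, c, hv, hdec, hc, hcv⟩ := hm u hu hus
  refine ⟨⟨v, hv, hdec⟩, ?_⟩
  tfae_have 1 → 2 := by
    intro hL
    -- `c` is zero
    have h1 : MemLp (fun _ : ℝ => c) 2 (volume.restrict (Ici (0 : ℝ))) := by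
      refine MemLp.of_le_mul (g := fun t => u t - up) (c := ‖A‖) hL
        aestronglyMeasurable_const ?_
      rw [ae_restrict_iff' measurableSet_Ici]
      filter_upwards [hc] with t ht ht0
      rw [← ht ht0]
      exact (Submodule.norm_starProjection_apply_le _ _).trans (A.le_opNorm _)
    rw [memLp_const_iff (by norm_num) (by norm_num)] at h1
    have hc0 : c = 0 := by
      rcases h1 with h1 | h1
      · exact h1
      · simp at h1
    filter_upwards [hc] with t ht ht0
    have h2 := ht ht0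
    rw [hc0] at h2
    exact Subtype.ext h2
  tfae_have 2 → 3 := by
    intro h2
    have hc0 : c = 0 := by
      obtain ⟨t, ht1, -, ht3⟩ := ae_exists_gt (hc.and h2) (show (0 : ℝ) < 1 by norm_num)
      rw [← ht3.1 ht1.le, Submodule.starProjection_apply, ht3.2 ht1.le]
      rfl
    have := hcv hc0
    rw [this] at hdec
    exact hdec
  tfae_have 3 → 4 := fun h3 => ⟨C, β, hβ, h3⟩
  tfae_have 4 → 1 := by
    rintro ⟨C', β', hβ', h4⟩
    have hi : IntegrableOn (fun t => (C' * Real.exp (-β' * t)) ^ 2) (Ici (0 : ℝ)) := by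
      rw [integrableOn_Ici_iff_integrableOn_Ioi]
      have h5 := (exp_neg_integrableOn_Ioi (0 : ℝ) (show 0 < 2 * β' by positivity)).const_mul
        (C' ^ 2)
      refine h5.congr (Eventually.of_forall fun t => ?_)
      show C' ^ 2 * Real.exp (-(2 * β') * t) = (C' * Real.exp (-β' * t)) ^ 2
      rw [mul_pow, ← Real.exp_nat_mul]
      congr 2
      push_cast
      ring
    have hb : MemLp (fun t => C' * Real.exp (-β' * t)) 2 (volume.restrict (Ici (0 : ℝ))) := by
      rw [memLp_two_iff_integrable_sq]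
      · exact hi
      · exact (by fun_prop : Continuous fun t : ℝ => C' * Real.exp (-β' * t)).aestronglyMeasurable
    refine MemLp.of_le hb (hu.meas.sub aestronglyMeasurable_const) ?_
    rw [ae_restrict_iff' measurableSet_Ici]
    filter_upwards [h4] with t ht ht0
    exact (ht ht0).trans (le_abs_self _)
  tfae_finish

omit [CompleteSpace H] in
theorem const_isSol {A : H → H} {Q : H → H} {v : H} (hv : Q v = 0) :
    IsSol A Q (fun _ => v) := by
  refine ⟨aestronglyMeasurable_const, ⟨‖v‖, Eventually.of_forall fun t _ => le_rfl⟩,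
    fun _ => A v, Eventually.of_forall fun t _ => rfl, ?_, ?_⟩
  · intro S _
    exact (LipschitzWith.const (A v) (α := ℝ)).lipschitzOnWith.absolutelyContinuousOnInterval
  · exact Eventually.of_forall fun t _ => by
      show HasDerivAt (fun _ => A v) (Q v) t
      rw [hv]
      exact hasDerivAt_const t (A v)

omit [NormedSpace ℝ H] [CompleteSpace H] in
theorem not_expDecay_const {v up : H} (hne : v ≠ up) {C β : ℝ} (hβ : 0 < β) :
    ¬ ExpDecay C β (fun _ => v) up := by
  intro h
  have h0 : 0 < ‖v - up‖ := norm_pos_iff.2 (sub_ne_zero.2 hne)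
  have hlim : Tendsto (fun t : ℝ => C * Real.exp (-β * t)) atTop (𝓝 (C * 0)) := by
    apply Tendsto.const_mul
    apply Real.tendsto_exp_atBot.comp
    exact tendsto_id.const_mul_atTop_of_neg (by linarith)
  rw [mul_zero] at hlim
  have h1 : ∀ᶠ t in atTop, C * Real.exp (-β * t) < ‖v - up‖ := hlim.eventually_lt_const h0
  obtain ⟨t₀, ht₀⟩ := (h1.and (eventually_ge_atTop 0)).exists_forall_of_atTop
  obtain ⟨t, ht1, -, ht3⟩ := ae_exists_gt h (show t₀ < t₀ + 1 by linarith)
  have h2 := ht₀ t ht1.le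
  exact absurd (ht3 h2.2) (not_le.2 h2.1)

omit [CompleteSpace H] in
theorem literalFails_of {A : H →L[𝕜] H} {B : H →L[𝕜] H →L[𝕜] H} {up : H}
    (h : ∀ ε : ℝ, 0 < ε → ∃ v : H, v ≠ up ∧ ‖v - up‖ ≤ ε ∧ B v v = 0) :
    LiteralFails A B up := by
  intro ε hε
  obtain ⟨v, h1, h2, h3⟩ := h ε hε
  exact ⟨v, const_isSol h3, h2, fun C β hβ => not_expDecay_const h1 hβ⟩

end general

section realcase

variable {H : Type*} [NormedAddCommGroup H] [InnerProductSpace ℝ H] [CompleteSpace H]

theorem near_equil {A : H →L[ℝ] H} {N : Submodule ℝ H} {B : H →L[ℝ] H →L[ℝ] H} {up : H} {δ : ℝ}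
    (h : RHyp A N B up δ) (hN : N ≠ ⊥) (ε : ℝ) (hε : 0 < ε) :
    ∃ v : H, v ≠ up ∧ ‖v - up‖ ≤ ε ∧ B v v = 0 := by
  have := h.fin
  obtain ⟨r, hr0, hr⟩ := exists_equil h hε
  obtain ⟨n, hn, hn0⟩ := N.ne_bot_iff.1 hN
  have hnn : 0 < ‖n‖ := norm_pos_iff.2 hn0
  obtain ⟨w, hw1, hw2, hw3⟩ := hr ((r / (2 * ‖n‖)) • n) (N.smul_mem _ hn) (by
    rw [norm_smul, Real.norm_of_nonneg (by positivity)]
    rw [div_mul_eq_mul_div, div_lt_iff₀ (by positivity)]
    nlinarith)
  have hw0 : w ≠ 0 := by
    rintro rfl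
    rw [map_zero, map_zero] at hw3
    have h1 : r / (2 * ‖n‖) ≠ 0 := by positivity
    exact (smul_ne_zero h1 hn0) hw3.symm
  refine ⟨up + w, by simpa using hw0, by simpa using hw1.le, ?_⟩
  have h1 : B (up + w) (up + w) = B up up + ((2 : ℝ) • B up w + B w w) := by
    simp only [map_add, _root_.add_apply, two_smul]
    rw [h.B_symm w up]
    abel
  rw [h1, h.eq_zero, hw2, add_zero]

variable {A : H →L[ℝ] H} {V : Submodule ℝ H} {B : H →L[ℝ] H →L[ℝ] H} {up : H}

theorem rhyp_real (h : Hyp A V B up) : ∃ δ, RHyp A Vᗮ B up δ := by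
  obtain ⟨δ, hδ, hneg⟩ := h.T_neg
  have : CompleteSpace V := h.V_closed.completeSpace_coe
  refine ⟨δ, h.A_self, h.V_fin, h.B_symm, ?_, ?_, h.Q_zero, ?_, ?_, hδ, ?_⟩
  · intro x y n hn
    exact Submodule.inner_right_of_mem_orthogonal (h.B_mem x y) hn
  · intro x hx hxy
    have h1 : (Vᗮ).orthogonalProjectionOnto (A x) = 0 := by
      rw [Submodule.orthogonalProjectionOnto_eq_zero_iff, Submodule.mem_orthogonal']
      exact hxy
    have h2 := h.A_inv.1 (a₁ := ⟨x, hx⟩) (a₂ := 0) (by simpa using h1)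
    exact congrArg Subtype.val h2
  · intro x y
    have h1 := h.T_self x y
    rw [real_inner_smul_left, real_inner_smul_right] at h1
    linarith
  · intro x hx
    have h1 := (h.T_ker x).2 hx
    rcases smul_eq_zero.1 h1 with h2 | h2
    · norm_num at h2
    · exact h2
  · intro x hx
    have hxV : x ∈ V := by
      rw [← Submodule.orthogonal_orthogonal V, Submodule.mem_orthogonal']
      exact hx
    have h1 := hneg x hxV
    rw [real_inner_smul_left] at h1
    exact h1

theorem positive_real (h : Hyp A V B up) : PositiveResult A V B up := by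
  obtain ⟨δ, hR⟩ := rhyp_real h
  have := h.V_fin
  exact positive_of (real_main hR)

theorem literal_real (h : Hyp A V B up) : LiteralFails A B up := by
  obtain ⟨δ, hR⟩ := rhyp_real h
  have : CompleteSpace V := h.V_closed.completeSpace_coe
  apply literalFails_of
  apply near_equil hR
  intro h1
  exact h.V_ne_top (Submodule.orthogonal_eq_bot_iff.1 h1)

end realcase

section complexcase

attribute [local instance] InnerProductSpace.complexToReal

variable {H : Type*} [NormedAddCommGroup H] [InnerProductSpace ℂ H] [CompleteSpace H]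
variable {A : H →L[ℂ] H} {V : Submodule ℂ H} {B : H →L[ℂ] H →L[ℂ] H} {up : H}

omit [CompleteSpace H] in
theorem rinner (x y : H) : inner ℝ x y = RCLike.re (inner ℂ x y) :=
  real_inner_eq_re_inner ℂ x y

omit [CompleteSpace H] in
theorem perp_complex {N : Submodule ℂ H} {x : H}
    (hx : ∀ n ∈ N, inner ℝ x n = 0) : ∀ n ∈ N, inner ℂ x n = 0 := by
  intro n hn
  have h1 := hx n hn
  have h2 := hx (Complex.I • n) (N.smul_mem _ hn)
  rw [rinner] at h1 h2
  rw [inner_smul_right] at h2
  apply Complex.ext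
  · exact h1
  · simpa using h2

theorem rhyp_complex (h : Hyp A V B up) :
    ∃ δ, RHyp (A.restrictScalars ℝ) ((Vᗮ).restrictScalars ℝ) (B.bilinearRestrictScalars ℝ) up δ := by
  obtain ⟨δ, hδ, hneg⟩ := h.T_neg
  have : CompleteSpace V := h.V_closed.completeSpace_coe
  refine ⟨δ, ?_, ?_, h.B_symm, ?_, ?_, h.Q_zero, ?_, ?_, hδ, ?_⟩
  · intro x y
    rw [rinner, rinner]
    exact congrArg _ (h.A_self x y)
  · have := h.V_fin
    exact (inferInstance : FiniteDimensional ℝ (Vᗮ : Submodule ℂ H))
  · intro x y n hn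
    rw [rinner]
    have h1 : inner ℂ (B x y) n = 0 := Submodule.inner_right_of_mem_orthogonal (h.B_mem x y) hn
    show RCLike.re (inner ℂ (B x y) n) = 0
    rw [h1, map_zero]
  · intro x hx hxy
    have h1 : (Vᗮ).orthogonalProjectionOnto (A x) = 0 := by
      rw [Submodule.orthogonalProjectionOnto_eq_zero_iff, Submodule.mem_orthogonal']
      exact perp_complex hxy
    have h2 := h.A_inv.1 (a₁ := ⟨x, hx⟩) (a₂ := 0) (by simpa using h1)
    exact congrArg Subtype.val h2
  · intro x y
    have h1 := congrArg RCLike.re (h.T_self x y)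
    rw [← rinner, ← rinner] at h1
    have e : ∀ z : H, (2 : ℂ) • z = (2 : ℝ) • z := fun z => by
      rw [two_smul, two_smul]
    rw [e, e, real_inner_smul_left, real_inner_smul_right] at h1
    show inner ℝ (B up x) y = inner ℝ x (B up y)
    linarith
  · intro x hx
    have h1 := (h.T_ker x).2 hx
    rcases smul_eq_zero.1 h1 with h2 | h2
    · norm_num at h2
    · exact h2
  · intro x hx
    have hxV : x ∈ V := by
      rw [← Submodule.orthogonal_orthogonal V, Submodule.mem_orthogonal']
      exact perp_complex hx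
    have h1 := hneg x hxV
    rw [← rinner] at h1
    have e : ∀ z : H, (2 : ℂ) • z = (2 : ℝ) • z := fun z => by
      rw [two_smul, two_smul]
    rw [e, real_inner_smul_left] at h1
    exact h1

omit [CompleteSpace H] in
theorem proj_complex [CompleteSpace V] (x : H)
    [((Vᗮ).restrictScalars ℝ).HasOrthogonalProjection] :
    ((Vᗮ).restrictScalars ℝ).starProjection x = (Vᗮ).starProjection x := by
  apply Submodule.eq_starProjection_of_mem_of_inner_eq_zero
  · exact Submodule.starProjection_apply_mem (Vᗮ) x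
  · intro w hw
    rw [rinner]
    have h1 : inner ℂ (x - (Vᗮ).starProjection x) w = 0 :=
      Submodule.starProjection_inner_eq_zero x w hw
    rw [h1, map_zero]

theorem positive_complex (h : Hyp A V B up) : PositiveResult A V B up := by
  obtain ⟨δ, hR⟩ := rhyp_complex h
  have := hR.fin
  have : CompleteSpace V := h.V_closed.completeSpace_coe
  apply positive_of
  obtain ⟨ε, C, β, hε, hC, hβ, hm⟩ := real_main hR
  refine ⟨ε, C, β, hε, hC, hβ, ?_⟩
  intro u hu hus
  obtain ⟨v, c, h1, h2, h3, h4⟩ := hm u hu hus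
  refine ⟨v, c, h1, h2, ?_, h4⟩
  filter_upwards [h3] with t ht ht0
  rw [← proj_complex]
  exact ht ht0

theorem literal_complex (h : Hyp A V B up) : LiteralFails A B up := by
  obtain ⟨δ, hR⟩ := rhyp_complex h
  have : CompleteSpace V := h.V_closed.completeSpace_coe
  apply literalFails_of
  apply near_equil hR
  intro h1
  rw [Submodule.restrictScalars_eq_bot_iff] at h1
  exact h.V_ne_top (Submodule.orthogonal_eq_bot_iff.1 h1)

end complexcase

end Pool.Agent.N219.DE
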