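import Pool.Agent.N219.DE.Core

/-!
# Pointwise exponential decay for normalized solutions: telescoping averages
-/

open MeasureTheory Set Filter Topology
open scoped InnerProductSpace

namespace Pool.Agent.N219.DE

theorem root8 {x : ℝ} (hx : 0 < x) : ∃ y : ℝ, 0 < y ∧ y ^ 8 = x :=
  ⟨x ^ ((8 : ℕ) : ℝ)⁻¹, Real.rpow_pos_of_pos hx _, Real.rpow_inv_natCast_pow hx.le (by norm_num)⟩

variable {H : Type*} [NormedAddCommGroup H] [InnerProductSpace ℝ H]

section main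

variable [CompleteSpace H] {A T : H →L[ℝ] H} {B : H →L[ℝ] H →L[ℝ] H} {W : Submodule ℝ H}
  {ε κ τ b : ℝ} {z : ℝ → H}

/-- Step (iv): bound for the difference of two consecutive dyadic averages. -/
theorem delta_bound (hA : ∀ x y, ⟪A x, y⟫_ℝ = ⟪x, A y⟫_ℝ)
    (hBs : ∀ x y, B x y = B y x) (hκ : 0 < κ) (hT : ‖T‖ ≤ τ)
    (hB : ‖B‖ ≤ b) (hW : ∀ x ∈ W, 2 * κ * ‖x‖ ^ 2 ≤ -(2 * ⟪T x, x⟫_ℝ))
    (hε : 4 * b * ε ≤ κ) (hz : NSol A T B W ε z) {h : ℝ} (hh : 0 < h) (hh1 : h ≤ 1) (n : ℕ)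
    {t : ℝ} (hn : (n : ℝ) + 2 ≤ t) :
    ‖h⁻¹ • (∫ x in t..(t + h), z x) - (2 * h)⁻¹ • ∫ x in t..(t + 2 * h), z x‖ ^ 8 ≤
      ((τ * ε + b * ε * ε) ^ 6 * (ε ^ 2 + (‖A‖ + 1) * ε ^ 2 / κ) / (64 * κ ^ 6)) * h ^ 2 *
        ((‖A‖ + 1) / (κ + (‖A‖ + 1))) ^ n := by
  have hmp := (measurePreserving_add_right (volume : Measure ℝ) h).quasiMeasurePreserving
  have hzm' : AEStronglyMeasurable (fun t => z (t + h)) volume :=
    hz.meas.comp_quasiMeasurePreserving hmp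
  have hDm : AEStronglyMeasurable (fun t => z (t + h) - z t) volume := hzm'.sub hz.meas
  have hDb : ∀ t, ‖z (t + h) - z t‖ ≤ 2 * ε := fun t =>
    (norm_sub_le _ _).trans (by linarith [hz.bdd t, hz.bdd (t + h)])
  have hi : ∀ a c, IntervalIntegrable z volume a c := intInt hz.meas hz.bdd
  have hi' : ∀ a c, IntervalIntegrable (fun t => z (t + h)) volume a c :=
    intInt hzm' (fun t => hz.bdd (t + h))
  have hfi : ∀ a c, IntervalIntegrable (fun t => ‖z (t + h) - z t‖ ^ 2) volume a c :=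
    sqInt hDm hDb
  have h1 : h⁻¹ • (∫ x in t..(t + h), z x) - (2 * h)⁻¹ • ∫ x in t..(t + 2 * h), z x =
      -((2 * h)⁻¹ • ∫ x in t..(t + h), (z (x + h) - z x)) := by
    rw [intervalIntegral.integral_sub (hi' _ _) (hi _ _),
      intervalIntegral.integral_comp_add_right (fun x => z x) h,
      ← intervalIntegral.integral_add_adjacent_intervals (hi t (t + h)) (hi (t + h) (t + 2 * h)),
      show t + h + h = t + 2 * h by ring]
    have h2 : h⁻¹ = (2 * h)⁻¹ + (2 * h)⁻¹ := by field_simp; ring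
    rw [h2, add_smul, smul_add, smul_sub]
    abel
  rw [h1, norm_neg, norm_smul, norm_inv, Real.norm_of_nonneg (by positivity : 0 ≤ 2 * h)]
  have h3 := cs_integral hDm hDb (show t < t + h by linarith)
  rw [add_sub_cancel_left] at h3
  have h4 : ∫ x in t..(t + h), ‖z (x + h) - z x‖ ^ 2 ≤
      ∫ x in ((n : ℝ) + 2)..(t + 1), ‖z (x + h) - z x‖ ^ 2 :=
    (integral_mono_left hfi (fun _ => sq_nonneg _) hn).trans
      (integral_mono_right hfi (fun _ => sq_nonneg _) (by linarith))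
  have h5 := incr_decay hA hBs hκ hT hB hW hε hz hh n (t + 1) (by linarith)
  set J := ∫ x in ((n : ℝ) + 2)..(t + 1), ‖z (x + h) - z x‖ ^ 2 with hJ
  have hJ0 : 0 ≤ J := intervalIntegral.integral_nonneg (by linarith) (fun u _ => sq_nonneg _)
  set N := ‖∫ x in t..(t + h), (z (x + h) - z x)‖ with hN
  have h6 : N ^ 2 ≤ h * J := h3.trans (mul_le_mul_of_nonneg_left h4 hh.le)
  have h7 : N ^ 8 ≤ h ^ 4 * J ^ 4 := by
    calc N ^ 8 = (N ^ 2) ^ 4 := by ring
      _ ≤ (h * J) ^ 4 := pow_le_pow_left₀ (sq_nonneg _) h6 4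
      _ = _ := by ring
  set q := (‖A‖ + 1) / (κ + (‖A‖ + 1)) with hq
  set C₀ := ε ^ 2 + (‖A‖ + 1) * ε ^ 2 / κ with hC₀
  set L := τ * ε + b * ε * ε with hL
  have h8 : J ^ 4 ≤ (L * h) ^ 6 * (4 * (C₀ * q ^ n)) / κ ^ 6 := by
    rw [le_div_iff₀ (by positivity)]
    linarith
  calc ((2 * h)⁻¹ * N) ^ 8 = ((2 * h)⁻¹) ^ 8 * N ^ 8 := by ring
    _ ≤ ((2 * h)⁻¹) ^ 8 * (h ^ 4 * ((L * h) ^ 6 * (4 * (C₀ * q ^ n)) / κ ^ 6)) := by
        apply mul_le_mul_of_nonneg_left _ (by positivity)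
        exact h7.trans (mul_le_mul_of_nonneg_left h8 (by positivity))
    _ = _ := by
        field_simp
        ring

/-- **Core theorem**: uniform pointwise exponential decay of normalized solutions. -/
theorem core_decay (hA : ∀ x y, ⟪A x, y⟫_ℝ = ⟪x, A y⟫_ℝ)
    (hBs : ∀ x y, B x y = B y x) (hκ : 0 < κ) (hε0 : 0 ≤ ε) (hτ0 : 0 ≤ τ)
    (hB : ‖B‖ ≤ b) (hε : 4 * b * ε ≤ κ) :
    ∃ C β : ℝ, 0 < C ∧ 0 < β ∧ ∀ T : H →L[ℝ] H, ‖T‖ ≤ τ →
      (∀ x ∈ W, 2 * κ * ‖x‖ ^ 2 ≤ -(2 * ⟪T x, x⟫_ℝ)) →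
      ∀ z : ℝ → H, NSol A T B W ε z → ∀ᵐ t, 0 < t → ‖z t‖ ≤ C * Real.exp (-β * t) := by
  have hb : 0 ≤ b := B.opNorm_nonneg.trans hB
  set q := (‖A‖ + 1) / (κ + (‖A‖ + 1)) with hq
  set C₀ := ε ^ 2 + (‖A‖ + 1) * ε ^ 2 / κ with hC₀
  set L := τ * ε + b * ε * ε with hL
  have hA1 : 0 < ‖A‖ + 1 := by positivity
  have hq0 : 0 < q := by positivity
  have hq1 : q < 1 := by rw [hq, div_lt_one (by positivity)]; linarith
  have hC₀0 : 0 ≤ C₀ := by positivity
  have hL0 : 0 ≤ L := by positivity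
  set C₁ := L ^ 6 * C₀ / (64 * κ ^ 6) with hC₁
  have hC₁0 : 0 ≤ C₁ := by positivity
  obtain ⟨σ, hσ0, hσ⟩ := root8 hq0
  obtain ⟨ρ, hρ0, hρ⟩ := root8 (show (0 : ℝ) < 1 / 4 by norm_num)
  obtain ⟨D, hD0, hD⟩ := root8 (show (0 : ℝ) < C₁ + 1 by positivity)
  obtain ⟨D', hD'0, hD'⟩ := root8 (show (0 : ℝ) < C₀ ^ 4 + 1 by positivity)
  have hσ1 : σ < 1 := by
    by_contra hcon
    push Not at hcon
    have : 1 ≤ σ ^ 8 := one_le_pow₀ hcon
    linarith
  have hρ1 : ρ < 1 := by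
    by_contra hcon
    push Not at hcon
    have : 1 ≤ ρ ^ 8 := one_le_pow₀ hcon
    linarith
  set β := -Real.log σ with hβ
  have hβ0 : 0 < β := by have := Real.log_neg hσ0 hσ1; linarith
  set C₂ := D' + D / (1 - ρ) with hC₂
  have h1ρ : 0 < 1 - ρ := by linarith
  have hC₂0 : 0 < C₂ := by positivity
  refine ⟨(C₂ + ε) * Real.exp (3 * β), β, by positivity, hβ0, ?_⟩
  intro T hT hW z hz
  have hZd : ∀ᵐ t, HasDerivAt (fun t => ∫ s in (0 : ℝ)..t, z s) (z t) t := by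
    filter_upwards [_root_.LocallyIntegrable.ae_hasDerivAt_integral (locInt hz.meas hz.bdd)]
      with t ht using ht 0
  have hi : ∀ a c, IntervalIntegrable z volume a c := intInt hz.meas hz.bdd
  filter_upwards [hZd] with t ht ht0
  -- the main bound
  have hmain : ∀ n : ℕ, (n : ℝ) + 2 ≤ t → ‖z t‖ ≤ C₂ * σ ^ n := by
    intro n hn
    set avg : ℕ → H := fun k => (((1 : ℝ) / 2) ^ k)⁻¹ • ∫ x in t..(t + (1 / 2) ^ k), z x with havg
    have hstep : ∀ k, ‖avg (k + 1) - avg k‖ ≤ D * ρ ^ (k + 1) * σ ^ n := by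
      intro k
      have hh : (0 : ℝ) < (1 / 2) ^ (k + 1) := by positivity
      have hh1 : ((1 : ℝ) / 2) ^ (k + 1) ≤ 1 := pow_le_one₀ (by norm_num) (by norm_num)
      have h1 := delta_bound hA hBs hκ hT hB hW hε hz hh hh1 n hn
      have h2 : 2 * ((1 : ℝ) / 2) ^ (k + 1) = (1 / 2) ^ k := by rw [pow_succ]; ring
      rw [h2] at h1
      rw [← pow_le_pow_iff_left₀ (norm_nonneg _) (by positivity) (show (8 : ℕ) ≠ 0 by norm_num)]
      refine h1.trans ?_
      have h3 : (((1 : ℝ) / 2) ^ (k + 1)) ^ 2 = (ρ ^ (k + 1)) ^ 8 := by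
        rw [← pow_mul, ← pow_mul, mul_comm (k + 1) 2, mul_comm (k + 1) 8, pow_mul, pow_mul, hρ]
        norm_num
      have h4 : q ^ n = (σ ^ n) ^ 8 := by rw [← pow_mul, mul_comm, pow_mul, hσ]
      rw [h3, h4, mul_pow, mul_pow, hD]
      gcongr
      linarith
    have h0 : ‖avg 0‖ ≤ D' * σ ^ n := by
      have h1 := cs_integral hz.meas hz.bdd (show t < t + 1 by linarith)
      have h2 := tail_decay hA hBs hκ hT hB hW hε hz n (t + 1) (by linarith) (by linarith)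
      have h3 : ∫ x in t..(t + 1), ‖z x‖ ^ 2 ≤ ∫ x in (n : ℝ)..(t + 1), ‖z x‖ ^ 2 :=
        integral_mono_left (sqInt hz.meas hz.bdd) (fun _ => sq_nonneg _) (by linarith)
      have h4 : avg 0 = ∫ x in t..(t + 1), z x := by simp [havg]
      rw [h4]
      rw [add_sub_cancel_left, one_mul] at h1
      rw [← pow_le_pow_iff_left₀ (norm_nonneg _) (by positivity) (show (8 : ℕ) ≠ 0 by norm_num)]
      have h5 : ‖∫ x in t..(t + 1), z x‖ ^ 2 ≤ C₀ * q ^ n := h1.trans (h3.trans h2)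
      have hqn : q ^ n ≤ 1 := pow_le_one₀ hq0.le hq1.le
      have h6 : q ^ n = (σ ^ n) ^ 8 := by rw [← pow_mul, mul_comm, pow_mul, hσ]
      calc ‖∫ x in t..(t + 1), z x‖ ^ 8 = (‖∫ x in t..(t + 1), z x‖ ^ 2) ^ 4 := by ring
        _ ≤ (C₀ * q ^ n) ^ 4 := pow_le_pow_left₀ (sq_nonneg _) h5 4
        _ = C₀ ^ 4 * ((q ^ n) ^ 3 * q ^ n) := by ring
        _ ≤ C₀ ^ 4 * (1 * q ^ n) := by
            gcongr
            exact pow_le_one₀ (by positivity) hqn
        _ ≤ (C₀ ^ 4 + 1) * q ^ n := by nlinarith [pow_pos hq0 n]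
        _ = (D' * σ ^ n) ^ 8 := by rw [mul_pow, hD', h6]
    have hsum : ∀ N, ‖avg N‖ ≤ D' * σ ^ n + D * σ ^ n * ((1 - ρ ^ N) / (1 - ρ)) := by
      intro N
      induction N with
      | zero => simpa using h0
      | succ N ih =>
        have h1 : ‖avg (N + 1)‖ ≤ ‖avg N‖ + ‖avg (N + 1) - avg N‖ := by
          have := norm_add_le (avg N) (avg (N + 1) - avg N)
          rwa [add_sub_cancel] at this
        have h2 : (1 - ρ ^ N) / (1 - ρ) + ρ ^ (N + 1) ≤ (1 - ρ ^ (N + 1)) / (1 - ρ) := by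
          rw [div_add' _ _ _ h1ρ.ne', div_le_div_iff_of_pos_right h1ρ]
          have h3 : ρ ^ (N + 1) ≤ ρ ^ N := pow_le_pow_of_le_one hρ0.le hρ1.le (Nat.le_succ N)
          have h4 : ρ ^ (N + 1) * (1 - ρ) ≤ ρ ^ N * (1 - ρ) :=
            mul_le_mul_of_nonneg_right h3 h1ρ.le
          have h5 : ρ ^ N * (1 - ρ) = ρ ^ N - ρ ^ (N + 1) := by ring
          linarith
        have h4 : 0 ≤ D * σ ^ n := by positivity
        have h5 := mul_le_mul_of_nonneg_left h2 h4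
        have h6 := hstep N
        have h7 : D * ρ ^ (N + 1) * σ ^ n = D * σ ^ n * ρ ^ (N + 1) := by ring
        rw [mul_add] at h5
        linarith
    have hlim : Tendsto avg atTop (𝓝 (z t)) := by
      have h1 : Tendsto (fun k : ℕ => ((1 : ℝ) / 2) ^ k) atTop (𝓝[≠] 0) := by
        apply tendsto_nhdsWithin_of_tendsto_nhds_of_eventually_within
        · exact tendsto_pow_atTop_nhds_zero_of_lt_one (by norm_num) (by norm_num)
        · exact Eventually.of_forall fun k => by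
            have : (0 : ℝ) < (1 / 2) ^ k := by positivity
            exact this.ne'
      have h2 := ht.tendsto_slope_zero.comp h1
      refine h2.congr fun k => ?_
      simp only [Function.comp_apply, havg]
      rw [intervalIntegral.integral_interval_sub_left (hi _ _) (hi _ _)]
    have h7 : ‖z t‖ ≤ D' * σ ^ n + D * σ ^ n * (1 / (1 - ρ)) := by
      refine le_of_tendsto hlim.norm (Eventually.of_forall fun N => ?_)
      refine (hsum N).trans ?_
      have h8 : (1 - ρ ^ N) / (1 - ρ) ≤ 1 / (1 - ρ) := by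
        rw [div_le_div_iff_of_pos_right h1ρ]
        linarith [pow_pos hρ0 N]
      gcongr
    calc ‖z t‖ ≤ D' * σ ^ n + D * σ ^ n * (1 / (1 - ρ)) := h7
      _ = C₂ * σ ^ n := by rw [hC₂]; ring
  -- conversion to an exponential
  have hexp : Real.exp (3 * β) * Real.exp (-β * t) = Real.exp (-(β * (t - 3))) := by
    rw [← Real.exp_add]; congr 1; ring
  rw [mul_assoc, hexp]
  by_cases ht2 : t < 2
  · have h1 : 1 ≤ Real.exp (-(β * (t - 3))) := by
      rw [← Real.exp_zero]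
      apply Real.exp_le_exp.2
      have : 0 ≤ β * (3 - t) := mul_nonneg hβ0.le (by linarith)
      linarith
    have h2 := hz.bdd t
    have h3 : (C₂ + ε) * 1 ≤ (C₂ + ε) * Real.exp (-(β * (t - 3))) :=
      mul_le_mul_of_nonneg_left h1 (by linarith)
    linarith
  · push Not at ht2
    have h1 := hmain ⌊t - 2⌋₊ (by have := Nat.floor_le (show 0 ≤ t - 2 by linarith); linarith)
    have h2 : t - 3 ≤ (⌊t - 2⌋₊ : ℝ) := by have := Nat.lt_floor_add_one (t - 2); linarith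
    have h3 : σ ^ ⌊t - 2⌋₊ ≤ Real.exp (-(β * (t - 3))) := by
      have h4 : σ = Real.exp (-β) := by rw [hβ, neg_neg, Real.exp_log hσ0]
      have h5 : σ ^ ⌊t - 2⌋₊ = Real.exp (-(β * (⌊t - 2⌋₊ : ℝ))) := by
        rw [h4, ← Real.exp_nat_mul]
        congr 1
        ring
      rw [h5]
      apply Real.exp_le_exp.2
      exact neg_le_neg (mul_le_mul_of_nonneg_left h2 hβ0.le)
    calc ‖z t‖ ≤ C₂ * σ ^ ⌊t - 2⌋₊ := h1
      _ ≤ C₂ * Real.exp (-(β * (t - 3))) := mul_le_mul_of_nonneg_left h3 hC₂0.le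
      _ ≤ (C₂ + ε) * Real.exp (-(β * (t - 3))) := by
          apply mul_le_mul_of_nonneg_right _ (Real.exp_pos _).le
          linarith

end main

end Pool.Agent.N219.DE
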