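import Pool.Agent.N219.DE.Equil
import Pool.Agent.N219.DE.Defs

/-!
# Real Hilbert space version of the main theorem
-/

open MeasureTheory Set Filter Topology
open scoped InnerProductSpace NNReal

namespace Pool.Agent.N219.DE

/-- integrated form of the equation, for bounded right hand side -/
theorem integrated {H : Type*} [NormedAddCommGroup H] [NormedSpace ℝ H] [CompleteSpace H]
    {y g : ℝ → H} {L : ℝ} (hgm : AEStronglyMeasurable g volume) (hgb : ∀ t, ‖g t‖ ≤ L)
    (hac : ∀ S : ℝ, 0 ≤ S → AbsolutelyContinuousOnInterval y 0 S)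
    (hd : ∀ᵐ t, 0 ≤ t → HasDerivAt y (g t) t) {t : ℝ} (ht : 0 ≤ t) :
    y t = y 0 + ∫ s in (0 : ℝ)..t, g s := by
  have hL : 0 ≤ L := (norm_nonneg _).trans (hgb 0)
  have hi : ∀ a b, IntervalIntegrable g volume a b := intInt hgm hgb
  have hlip : LipschitzWith ⟨L, hL⟩ (fun x => ∫ s in (0 : ℝ)..x, g s) := by
    apply LipschitzWith.of_dist_le_mul
    intro p q
    rw [dist_eq_norm, intervalIntegral.integral_interval_sub_left (hi _ _) (hi _ _),
      Real.dist_eq]
    exact intervalIntegral.norm_integral_le_of_norm_le_const (fun x _ => hgb x)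
  have hac2 : AbsolutelyContinuousOnInterval (fun x => ∫ s in (0 : ℝ)..x, g s) 0 t :=
    (hlip.lipschitzOnWith (s := uIcc 0 t)).absolutelyContinuousOnInterval
  have hac3 : AbsolutelyContinuousOnInterval (fun x => y x - ∫ s in (0 : ℝ)..x, g s) 0 t :=
    (hac t ht).fun_sub hac2
  have hd0 : ∀ᵐ x, x ∈ uIcc 0 t → HasDerivAt (fun x => y x - ∫ s in (0 : ℝ)..x, g s) 0 x := by
    filter_upwards [hd, _root_.LocallyIntegrable.ae_hasDerivAt_integral (locInt hgm hgb)]
      with x hx1 hx2 hx3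
    rw [uIcc_of_le ht] at hx3
    have h1 := (hx1 hx3.1).sub (hx2 0)
    rw [sub_self] at h1
    exact h1
  obtain ⟨C, hC⟩ := hac3.const_of_ae_hasDerivAt_zero hd0
  have h1 := hC 0 left_mem_uIcc
  have h2 := hC t right_mem_uIcc
  simp only [intervalIntegral.integral_same, sub_zero] at h1
  rw [h1, ← h2]
  abel

variable {H : Type*} [NormedAddCommGroup H] [InnerProductSpace ℝ H] [CompleteSpace H]
variable {A : H →L[ℝ] H} {N : Submodule ℝ H} {B : H →L[ℝ] H →L[ℝ] H} {up : H} {δ : ℝ}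

/-- Main theorem, real version. -/
theorem real_main [FiniteDimensional ℝ N] (h : RHyp A N B up δ) :
    ∃ ε C β : ℝ, 0 < ε ∧ 0 < C ∧ 0 < β ∧
      ∀ u : ℝ → H, IsSol (fun x => A x) (fun x => B x x) u →
        (∀ᵐ t, 0 ≤ t → ‖u t - up‖ ≤ ε) →
        ∃ v c : H, B v v = 0 ∧ (∀ᵐ t, 0 ≤ t → ‖u t - v‖ ≤ C * Real.exp (-β * t)) ∧
          (∀ᵐ t, 0 ≤ t → N.starProjection (A (u t - up)) = c) ∧ (c = 0 → v = up) := by
  obtain ⟨κ', hκ'0, hκ'⟩ := coercive_W h
  set b := ‖B‖ with hb
  have hb0 : 0 ≤ b := B.opNorm_nonneg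
  set κ := κ' / 4 with hκ
  have hκ0 : 0 < κ := by positivity
  set ε₂ := κ / (4 * b + 4) with hε₂
  have hε₂0 : 0 < ε₂ := by positivity
  have hε₂b : 4 * b * ε₂ ≤ κ := by
    rw [hε₂, mul_div_assoc', div_le_iff₀ (by positivity)]
    nlinarith
  obtain ⟨r, hr0, hr⟩ := exists_equil h (show 0 < ε₂ / 2 by positivity)
  set ε := min (ε₂ / 2) (r / (2 * (‖A‖ + 1))) with hε
  have hε0 : 0 < ε := lt_min (by positivity) (by positivity)
  have hε1 : ε ≤ ε₂ / 2 := min_le_left _ _
  have hε2 : ‖A‖ * ε < r := by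
    have h1 : ε ≤ r / (2 * (‖A‖ + 1)) := min_le_right _ _
    have h2 : ‖A‖ * ε ≤ ‖A‖ * (r / (2 * (‖A‖ + 1))) :=
      mul_le_mul_of_nonneg_left h1 (norm_nonneg _)
    have h3 : ‖A‖ * (r / (2 * (‖A‖ + 1))) < r := by
      rw [mul_div_assoc', div_lt_iff₀ (by positivity)]
      nlinarith [norm_nonneg A]
    linarith
  set τ := 2 * (b * (‖up‖ + ε₂)) with hτ
  have hτ0 : 0 ≤ τ := by positivity
  obtain ⟨C, β, hC0, hβ0, hmain⟩ := core_decay (W := WW A N) (τ := τ) h.A_self h.B_symm hκ0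
    hε₂0.le hτ0 (le_refl ‖B‖) hε₂b
  refine ⟨ε, C, β, hε0, hC0, hβ0, ?_⟩
  intro u hu hus
  obtain ⟨y, hy1, hy2, hy3⟩ := hu.eqn
  -- regularized solution
  set um := hu.meas.mk u with hum
  have humm : StronglyMeasurable um := hu.meas.stronglyMeasurable_mk
  have hume : ∀ᵐ t, 0 ≤ t → u t = um t := by
    have h1 := hu.meas.ae_eq_mk
    rw [EventuallyEq, ae_restrict_iff' measurableSet_Ici] at h1
    exact h1
  set E : Set ℝ := Ici 0 ∩ {t | ‖um t - up‖ ≤ ε} with hE
  have hEm : MeasurableSet E := by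
    apply measurableSet_Ici.inter
    exact measurableSet_le (humm.sub stronglyMeasurable_const).norm.measurable measurable_const
  classical
  set ut : ℝ → H := fun t => up + E.indicator (fun t => um t - up) t with hut
  have hutm : AEStronglyMeasurable ut volume :=
    ((stronglyMeasurable_const.add
      ((humm.sub stronglyMeasurable_const).indicator hEm))).aestronglyMeasurable
  have hutb : ∀ t, ‖ut t - up‖ ≤ ε := by
    intro t
    simp only [hut, add_sub_cancel_left]
    by_cases htE : t ∈ E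
    · rw [indicator_of_mem htE]; exact htE.2
    · rw [indicator_of_notMem htE, norm_zero]; exact hε0.le
  have hute : ∀ᵐ t, 0 ≤ t → u t = ut t := by
    filter_upwards [hume, hus] with t h1 h2 h3
    have htE : t ∈ E := ⟨h3, by
      show ‖um t - up‖ ≤ ε
      rw [← h1 h3]; exact h2 h3⟩
    simp only [hut]
    rw [indicator_of_mem htE, add_sub_cancel, h1 h3]
  -- projection of `A (ut - up)`
  have hutn : ∀ t, ‖ut t‖ ≤ ‖up‖ + ε := fun t => by
    have h1 : ut t = up + (ut t - up) := by abel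
    rw [h1]
    exact (norm_add_le _ _).trans (by linarith [hutb t])
  have hQm : AEStronglyMeasurable (fun t => B (ut t) (ut t)) volume :=
    B.aestronglyMeasurable_comp₂ hutm hutm
  have hQb : ∀ t, ‖B (ut t) (ut t)‖ ≤ b * (‖up‖ + ε) * (‖up‖ + ε) := fun t =>
    (B.le_opNorm₂ _ _).trans (by gcongr <;> exact hutn t)
  have hyd : ∀ᵐ t, 0 ≤ t → HasDerivAt y (B (ut t) (ut t)) t := by
    filter_upwards [hy3, hute] with t h1 h2 h3
    rw [← h2 h3]
    exact h1 h3
  have hyint : ∀ t, 0 ≤ t → y t = y 0 + ∫ s in (0 : ℝ)..t, B (ut s) (ut s) := fun t ht =>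
    integrated hQm hQb hy2 hyd ht
  have hPB : ∀ x y, N.starProjection (B x y) = 0 := fun x y =>
    (proj_zero_iff _).2 (fun n hn => h.B_perp x y n hn)
  have hQi : ∀ a c, IntervalIntegrable (fun t => B (ut t) (ut t)) volume a c := intInt hQm hQb
  have hPy : ∀ t, 0 ≤ t → N.starProjection (y t) = N.starProjection (y 0) := by
    intro t ht
    rw [hyint t ht, map_add, ← (N.starProjection).intervalIntegral_comp_comm (hQi 0 t)]
    simp [hPB]
  set c := N.starProjection (y 0 - A up) with hc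
  have hcN : c ∈ N := Submodule.starProjection_apply_mem N _
  have hPA : ∀ᵐ t, 0 ≤ t → N.starProjection (A (ut t - up)) = c := by
    filter_upwards [hy1, hute] with t h1 h2 h3
    rw [map_sub, ← h2 h3, h1 h3, map_sub, hPy t h3, hc, map_sub]
  have hPAu : ∀ᵐ t, 0 ≤ t → N.starProjection (A (u t - up)) = c := by
    filter_upwards [hPA, hute] with t h1 h2 h3
    rw [h2 h3]; exact h1 h3
  have hcr : ‖c‖ < r := by
    obtain ⟨t, ht1, -, ht3⟩ := ae_exists_gt hPA (show (0 : ℝ) < 1 by norm_num)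
    rw [← ht3 ht1.le]
    refine lt_of_le_of_lt ?_ hε2
    refine (Submodule.norm_starProjection_apply_le N _).trans ?_
    exact (A.le_opNorm _).trans (mul_le_mul_of_nonneg_left (hutb t) (norm_nonneg _))
  -- the equilibrium
  have hw : ∃ w : H, ‖w‖ < ε₂ / 2 ∧ (2 : ℝ) • B up w + B w w = 0 ∧ N.starProjection (A w) = c ∧
      (c = 0 → w = 0) := by
    by_cases hc0 : c = 0
    · exact ⟨0, by simpa using hε₂0, by simp, by simp [hc0], fun _ => rfl⟩
    · obtain ⟨w, h1, h2, h3⟩ := hr c hcN hcr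
      exact ⟨w, h1, h2, h3, fun h4 => absurd h4 hc0⟩
  obtain ⟨w, hw1, hw2, hw3, hw4⟩ := hw
  have hQ0 : B (up + w) (up + w) = 0 := by
    have h1 : B (up + w) (up + w) = B up up + ((2 : ℝ) • B up w + B w w) := by
      simp only [map_add, _root_.add_apply, two_smul]
      rw [h.B_symm w up]
      abel
    rw [h1, h.eq_zero, hw2, add_zero]
  set T : H →L[ℝ] H := (2 : ℝ) • B (up + w) with hT
  have hTn : ‖T‖ ≤ τ := by
    rw [hT, norm_smul, Real.norm_of_nonneg (by norm_num : (0 : ℝ) ≤ 2), hτ]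
    apply mul_le_mul_of_nonneg_left _ (by norm_num : (0 : ℝ) ≤ 2)
    refine (B.le_opNorm _).trans ?_
    apply mul_le_mul_of_nonneg_left _ hb0
    exact (norm_add_le _ _).trans (by linarith)
  have hTco : ∀ x ∈ WW A N, 2 * κ * ‖x‖ ^ 2 ≤ -(2 * ⟪T x, x⟫_ℝ) := by
    intro x hx
    have h1 := hκ' x hx
    have h2 : ⟪T x, x⟫_ℝ = 2 * ⟪B up x, x⟫_ℝ + 2 * ⟪B w x, x⟫_ℝ := by
      simp only [hT, map_add, _root_.smul_apply, _root_.add_apply, real_inner_smul_left,
        inner_add_left]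
      ring
    have h3 : |⟪B w x, x⟫_ℝ| ≤ b * (ε₂ / 2) * ‖x‖ * ‖x‖ := by
      refine (abs_real_inner_le_norm _ _).trans ?_
      apply mul_le_mul_of_nonneg_right _ (norm_nonneg _)
      exact (B.le_opNorm₂ _ _).trans (by gcongr)
    have h4 := (abs_le.1 h3).2
    have h5 : 4 * b * ε₂ * ‖x‖ ^ 2 ≤ κ * ‖x‖ ^ 2 := mul_le_mul_of_nonneg_right hε₂b (sq_nonneg _)
    have h6 : κ' = 4 * κ := by rw [hκ]; ring
    rw [h6] at h1
    rw [h2]
    nlinarith [sq_nonneg ‖x‖]
  set z : ℝ → H := fun t => ut t - (up + w) with hz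
  have hNS : NSol A T B (WW A N) ε₂ z := by
    refine ⟨hutm.sub aestronglyMeasurable_const, ?_, ?_, ?_⟩
    · intro t
      have h1 : z t = (ut t - up) - w := by simp only [hz]; abel
      rw [h1]
      exact (norm_sub_le _ _).trans (by linarith [hutb t])
    · filter_upwards [hPA] with t h1 h2
      have h3 : N.starProjection (A (z t)) = 0 := by
        have h4 : z t = (ut t - up) - w := by simp only [hz]; abel
        rw [h4, map_sub, map_sub, h1 h2.le, hw3, sub_self]
      exact (proj_zero_iff _).1 h3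
    · refine ⟨y 0 - A (up + w), ?_⟩
      filter_upwards [hy1, hute] with t h1 h2 h3
      have h4 : (fun s => T (z s) + B (z s) (z s)) = fun s => B (ut s) (ut s) := by
        funext s
        have h5 : ut s = (up + w) + z s := by simp only [hz]; abel
        rw [h5]
        generalize z s = q
        generalize hv : up + w = v
        rw [hv] at hQ0
        simp only [hT, hv, map_add, _root_.add_apply, two_smul, hQ0]
        rw [h.B_symm q v]
        abel
      rw [h4]
      simp only [hz]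
      rw [map_sub, ← h2 h3.le, h1 h3.le, hyint t h3.le]
      abel
  refine ⟨up + w, c, hQ0, ?_, hPAu, fun h1 => by rw [hw4 h1, add_zero]⟩
  have h0 : ∀ᵐ t : ℝ, t ≠ 0 := by simp [ae_iff, measure_singleton]
  filter_upwards [hmain T hTn hTco z hNS, hute, h0] with t h1 h2 h3 h4
  rw [h2 h4]
  exact h1 (lt_of_le_of_ne h4 (Ne.symm h3))

end Pool.Agent.N219.DE
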